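import Pool.Agent.Q117.NE.Basic

/-! 1-nearly independent sets in trees: the general bound. -/

set_option autoImplicit false

namespace Q117.AV

open SimpleGraph Finset Q117.NE

section
variable {V : Type*} [Fintype V] (G : SimpleGraph V)

open Classical in
/-- 1-nearly independent sets -/
noncomputable def NI : Finset (Finset V) := univ.filter fun S => ds G S = 2

/-- number of 1-nearly independent sets -/
noncomputable def sg : ℕ := (NI G).card

/-- total size -/
noncomputable def tt : ℕ := ∑ S ∈ NI G, S.card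

open Classical in
/-- ordered adjacent pairs in `S` -/
noncomputable def PS (S : Finset V) : Finset (V × V) :=
  univ.filter fun p => p.1 ∈ S ∧ p.2 ∈ S ∧ G.Adj p.1 p.2

lemma card_PS (S : Finset V) : (PS G S).card = ds G S := by
  classical
  unfold PS ds
  rw [card_filter, Fintype.sum_prod_type, ← sum_subset (subset_univ S)]
  · refine sum_congr rfl fun u hu => ?_
    rw [← sum_subset (subset_univ S)]
    · refine sum_congr rfl fun v hv => ?_
      simp [hu, hv]
    · intro v _ hv
      simp [hv]
  · intro u _ hu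
    simp [hu]

open Classical in
/-- sets whose only edge is `uv` -/
noncomputable def FF (u v : V) : Finset (Finset V) :=
  univ.filter fun S => u ∈ S ∧ v ∈ S ∧ ∀ x ∈ S, ∀ y ∈ S, G.Adj x y →
    (x = u ∧ y = v) ∨ (x = v ∧ y = u)

lemma mem_FF {u v : V} {S : Finset V} : S ∈ FF G u v ↔ u ∈ S ∧ v ∈ S ∧ ∀ x ∈ S, ∀ y ∈ S,
    G.Adj x y → (x = u ∧ y = v) ∨ (x = v ∧ y = u) := by
  simp [FF]

lemma FF_iff {u v : V} (h : G.Adj u v) (S : Finset V) :
    S ∈ FF G u v ↔ S ∈ NI G ∧ u ∈ S ∧ v ∈ S := by
  classical
  rw [mem_FF]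
  have hne : ((u, v) : V × V) ≠ (v, u) := by
    intro e
    have : u = v := congrArg Prod.fst e
    exact h.ne this
  constructor
  · rintro ⟨hu, hv, hS⟩
    refine ⟨?_, hu, hv⟩
    unfold NI
    rw [mem_filter]
    refine ⟨mem_univ _, ?_⟩
    rw [← card_PS]
    have : PS G S = {(u, v), (v, u)} := by
      ext ⟨x, y⟩
      unfold PS
      simp only [mem_filter, mem_univ, true_and, mem_insert, mem_singleton, Prod.mk.injEq]
      constructor
      · rintro ⟨hx, hy, hxy⟩
        exact hS x hx y hy hxy
      · rintro (⟨rfl, rfl⟩ | ⟨rfl, rfl⟩)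
        · exact ⟨hu, hv, h⟩
        · exact ⟨hv, hu, h.symm⟩
    rw [this, card_pair hne]
  · rintro ⟨hS, hu, hv⟩
    unfold NI at hS
    rw [mem_filter, ← card_PS] at hS
    refine ⟨hu, hv, ?_⟩
    have hsub : ({(u, v), (v, u)} : Finset (V × V)) ⊆ PS G S := by
      intro p hp
      rw [mem_insert, mem_singleton] at hp
      unfold PS
      rw [mem_filter]
      rcases hp with rfl | rfl
      · exact ⟨mem_univ _, hu, hv, h⟩
      · exact ⟨mem_univ _, hv, hu, h.symm⟩
    have heq := eq_of_subset_of_card_le hsub (by rw [hS.2, card_pair hne])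
    intro x hx y hy hxy
    have : (x, y) ∈ PS G S := by
      unfold PS
      rw [mem_filter]
      exact ⟨mem_univ _, hx, hy, hxy⟩
    rw [← heq] at this
    simpa using this

lemma double (g : Finset V → ℕ) : 2 * ∑ S ∈ NI G, g S =
    (open Classical in ∑ p ∈ univ.filter (fun p : V × V => G.Adj p.1 p.2),
      ∑ S ∈ FF G p.1 p.2, g S) := by
  classical
  have h1 : ∀ p ∈ univ.filter (fun p : V × V => G.Adj p.1 p.2), ∑ S ∈ FF G p.1 p.2, g S =
      ∑ S ∈ NI G, if p ∈ PS G S then g S else 0 := by
    intro p hp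
    rw [mem_filter] at hp
    rw [← sum_filter]
    refine sum_congr ?_ fun _ _ => rfl
    ext S
    rw [FF_iff G hp.2, mem_filter]
    unfold PS
    rw [mem_filter]
    simp [hp.2]
  rw [sum_congr rfl h1, sum_comm, mul_sum]
  refine sum_congr rfl fun S hS => ?_
  rw [← sum_filter, sum_const, smul_eq_mul]
  congr 1
  have h2 : (univ.filter (fun p : V × V => G.Adj p.1 p.2)).filter (fun p => p ∈ PS G S) =
      PS G S := by
    ext p
    unfold PS
    simp only [mem_filter, mem_univ, true_and]
    tauto
  rw [h2, card_PS]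
  unfold NI at hS
  rw [mem_filter] at hS
  exact hS.2.symm

lemma sum_card (u v : V) :
    (open Classical in ∑ S ∈ FF G u v, S.card =
      ∑ x, ((FF G u v).filter fun S => x ∈ S).card) := by
  classical
  simp only [card_filter]
  rw [sum_comm]
  refine sum_congr rfl fun S _ => ?_
  simp

variable {u v : V}

lemma zero_out {x : V} (hxu : x ≠ u) (hxv : x ≠ v) (h : G.Adj u x ∨ G.Adj v x) :
    (open Classical in ((FF G u v).filter fun S => x ∈ S).card = 0) := by
  classical
  rw [card_eq_zero, filter_eq_empty_iff]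
  intro S hS hx
  rw [mem_FF] at hS
  rcases h with h | h
  · rcases hS.2.2 u hS.1 x hx h with h1 | h1
    · exact hxv h1.2
    · exact hxu h1.2
  · rcases hS.2.2 v hS.2.1 x hx h with h1 | h1
    · exact hxv h1.2
    · exact hxu h1.2

lemma erase_mem {x : V} (hxu : x ≠ u) (hxv : x ≠ v) {S : Finset V} (hS : S ∈ FF G u v) :
    (open Classical in S.erase x ∈ FF G u v) := by
  classical
  rw [mem_FF] at hS ⊢
  refine ⟨mem_erase.2 ⟨hxu.symm, hS.1⟩, mem_erase.2 ⟨hxv.symm, hS.2.1⟩, ?_⟩
  intro a ha b hb
  exact hS.2.2 a (mem_of_mem_erase ha) b (mem_of_mem_erase hb)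

lemma half {x : V} (hxu : x ≠ u) (hxv : x ≠ v) :
    (open Classical in 2 * ((FF G u v).filter fun S => x ∈ S).card ≤ (FF G u v).card) := by
  classical
  have h1 : ((FF G u v).filter fun S => x ∈ S).card ≤ ((FF G u v).filter fun S => x ∉ S).card := by
    refine card_le_card_of_injOn (fun S => S.erase x) ?_ ?_
    · intro S hS
      rw [mem_coe, mem_filter] at hS ⊢
      exact ⟨erase_mem G hxu hxv hS.1, notMem_erase x S⟩
    · intro S hS S' hS' h
      rw [mem_coe, mem_filter] at hS hS'
      simp only at h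
      rw [← insert_erase hS.2, ← insert_erase hS'.2, h]
  have h2 := card_filter_add_card_filter_not (s := FF G u v) (fun S => x ∈ S)
  omega

lemma third {x y : V} (hxu : x ≠ u) (hxv : x ≠ v) (hyu : y ≠ u) (hyv : y ≠ v) (hxy : G.Adj x y) :
    (open Classical in 3 * (((FF G u v).filter fun S => x ∈ S).card +
      ((FF G u v).filter fun S => y ∈ S).card) ≤ 2 * (FF G u v).card) := by
  classical
  have hno : ∀ S ∈ FF G u v, x ∈ S → y ∉ S := by
    intro S hS hx hy
    rw [mem_FF] at hS
    rcases hS.2.2 x hx y hy hxy with h | h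
    · exact hxu h.1
    · exact hxv h.1
  set Z := (FF G u v).filter fun S => x ∉ S ∧ y ∉ S with hZ
  have h1 : ((FF G u v).filter fun S => x ∈ S).card ≤ Z.card := by
    refine card_le_card_of_injOn (fun S => S.erase x) ?_ ?_
    · intro S hS
      rw [mem_coe, mem_filter] at hS
      rw [hZ, mem_coe, mem_filter]
      refine ⟨erase_mem G hxu hxv hS.1, notMem_erase x S, fun h => ?_⟩
      exact hno S hS.1 hS.2 (mem_of_mem_erase h)
    · intro S hS S' hS' h
      rw [mem_coe, mem_filter] at hS hS'
      simp only at h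
      rw [← insert_erase hS.2, ← insert_erase hS'.2, h]
  have h2 : ((FF G u v).filter fun S => y ∈ S).card ≤ Z.card := by
    refine card_le_card_of_injOn (fun S => S.erase y) ?_ ?_
    · intro S hS
      rw [mem_coe, mem_filter] at hS
      rw [hZ, mem_coe, mem_filter]
      refine ⟨erase_mem G hyu hyv hS.1, fun h => ?_, notMem_erase y S⟩
      exact hno S hS.1 (mem_of_mem_erase h) hS.2
    · intro S hS S' hS' h
      rw [mem_coe, mem_filter] at hS hS'
      simp only at h
      rw [← insert_erase hS.2, ← insert_erase hS'.2, h]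
  have h3 : (FF G u v).card = ((FF G u v).filter fun S => x ∈ S).card +
      ((FF G u v).filter fun S => y ∈ S).card + Z.card := by
    rw [← card_filter_add_card_filter_not (s := FF G u v) (fun S => x ∈ S), add_assoc]
    congr 1
    rw [← card_filter_add_card_filter_not (s := (FF G u v).filter fun S => x ∉ S)
      (fun S => y ∈ S)]
    congr 1
    · congr 1
      ext S
      simp only [mem_filter]
      constructor
      · rintro ⟨⟨a, b⟩, c⟩; exact ⟨a, c⟩
      · rintro ⟨a, c⟩
        exact ⟨⟨a, fun h => hno S a h c⟩, c⟩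
    · rw [hZ, filter_filter]
  omega

open Classical in
/-- the remaining vertices -/
noncomputable def RR (u v : V) : Finset V := univ.filter fun x => ¬ G.Adj u x ∧ ¬ G.Adj v x

/-- decomposition of the total size -/
lemma total_le (h : G.Adj u v) (B : Finset V) (hB : B ⊆ RR G u v) (b : ℕ)
    (hb : (open Classical in 6 * ∑ x ∈ B, ((FF G u v).filter fun S => x ∈ S).card ≤
      b * (FF G u v).card)) :
    6 * ∑ S ∈ FF G u v, S.card + 3 * B.card * (FF G u v).card ≤
      (12 + 3 * (RR G u v).card + b) * (FF G u v).card := by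
  classical
  rw [sum_card]
  set N := (FF G u v).card with hN
  let c : V → ℕ := fun x => ((FF G u v).filter fun S => x ∈ S).card
  have huR : u ∉ RR G u v := by
    unfold RR; rw [mem_filter]; exact fun h' => h'.2.2 h.symm
  have hvR : v ∉ RR G u v := by
    unfold RR; rw [mem_filter]; exact fun h' => h'.2.1 h
  have h1 : ∑ x, c x = ∑ x ∈ insert u (insert v (RR G u v)), c x := by
    symm
    apply sum_subset (subset_univ _)
    intro x _ hx
    rw [mem_insert, mem_insert, not_or, not_or] at hx
    apply zero_out G hx.1 hx.2.1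
    by_contra hcon
    push Not at hcon
    apply hx.2.2
    unfold RR
    rw [mem_filter]
    exact ⟨mem_univ _, hcon⟩
  have h2 : ∑ x ∈ insert u (insert v (RR G u v)), c x = c u + (c v + ∑ x ∈ RR G u v, c x) := by
    rw [sum_insert, sum_insert hvR]
    rw [mem_insert, not_or]
    exact ⟨h.ne, huR⟩
  have h3 : c u ≤ N := card_le_card (filter_subset _ _)
  have h4 : c v ≤ N := card_le_card (filter_subset _ _)
  have h5 : ∑ x ∈ RR G u v, c x = ∑ x ∈ RR G u v \ B, c x + ∑ x ∈ B, c x :=
    (sum_sdiff hB).symm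
  have h6 : 2 * ∑ x ∈ RR G u v \ B, c x ≤ ((RR G u v).card - B.card) * N := by
    rw [mul_sum, ← card_sdiff_of_subset hB, ← smul_eq_mul, ← sum_const]
    refine sum_le_sum fun x hx => ?_
    rw [mem_sdiff] at hx
    exact half G (fun e => huR (e ▸ hx.1)) (fun e => hvR (e ▸ hx.1))
  have h7 : B.card ≤ (RR G u v).card := card_le_card hB
  change 6 * ∑ x, c x + 3 * B.card * N ≤ _
  rw [h1, h2, h5]
  have h8 : ((RR G u v).card - B.card) * N + B.card * N = (RR G u v).card * N := by
    rw [← add_mul, Nat.sub_add_cancel h7]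
  change 6 * ∑ x ∈ B, c x ≤ b * N at hb
  nlinarith

end

end Q117.AV
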