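import Pool.Agent.Q117.AV.Small

/-! 1-nearly independent sets in trees: numerical check for at most 9 vertices. -/

set_option autoImplicit false

namespace Q117.AV

open SimpleGraph Finset Q117.NE

/-- number of edges of the tree `p` inside the set coded by `m` -/
def ec (m : ℕ) : List ℕ → ℕ → ℕ
  | [], _ => 0
  | q :: ps, y => (if decide (q < y) && (m.testBit y && m.testBit q) then 1 else 0) + ec m ps (y + 1)

lemma ec_eq (m : ℕ) (p : List ℕ) (y0 : ℕ) : ec m p y0 =
    ∑ i ∈ range p.length, if decide (p.getD i 0 < y0 + i) && (m.testBit (y0 + i) &&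
      m.testBit (p.getD i 0)) then 1 else 0 := by
  induction p generalizing y0 with
  | nil => simp [ec]
  | cons q ps ih =>
    rw [ec, ih, List.length_cons, sum_range_succ']
    rw [add_comm]
    congr 1
    refine sum_congr rfl fun i _ => ?_
    rw [List.getD_cons_succ, show y0 + 1 + i = y0 + (i + 1) by ring]

/-- number of elements of the set coded by `m` -/
def pc (m : ℕ) : ℕ → ℕ
  | 0 => 0
  | k + 1 => pc m k + (if m.testBit k then 1 else 0)

lemma pc_eq (m n : ℕ) : pc m n = ∑ i ∈ range n, if m.testBit i then 1 else 0 := by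
  induction n with
  | zero => rfl
  | succ n ih => rw [pc, ih, sum_range_succ]

/-- the set coded by `m` -/
def st (n m : ℕ) : Finset (Fin n) := univ.filter fun i => m.testBit i = true

lemma mem_st {n m : ℕ} {i : Fin n} : i ∈ st n m ↔ m.testBit i = true := by simp [st]

lemma card_st (n m : ℕ) : (st n m).card = pc m n := by
  rw [pc_eq, ← Fin.sum_univ_eq_sum_range (fun i => if m.testBit i then 1 else 0) n]
  unfold st
  rw [card_filter]

lemma ds_st {n : ℕ} {p : List ℕ} (hlen : p.length = n) (hp : ∀ y < n, 1 ≤ y → p.getD y 0 < y)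
    (m : ℕ) : ds (TG n p) (st n m) = 2 * ec m p 0 := by
  classical
  have h1 : ds (TG n p) (st n m) = ∑ x : Fin n, ∑ y : Fin n,
      ((if x.val < y.val ∧ p.getD y.val 0 = x.val ∧ m.testBit x = true ∧ m.testBit y = true
        then 1 else 0) + (if y.val < x.val ∧ p.getD x.val 0 = y.val ∧ m.testBit y = true ∧
          m.testBit x = true then 1 else 0)) := by
    unfold ds
    rw [← sum_subset (subset_univ (st n m))]
    · refine sum_congr rfl fun x hx => ?_
      rw [← sum_subset (subset_univ (st n m))]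
      · refine sum_congr rfl fun y hy => ?_
        rw [mem_st] at hx hy
        have h2 := TG_adj (n := n) (p := p) (x := x) (y := y)
        by_cases a : x.val < y.val
        · have b : ¬ y.val < x.val := by omega
          simp only [a, b, true_and, false_and, or_false, if_false, hx, hy, and_true] at h2 ⊢
          simp only [h2, add_zero]
        · simp only [a, false_and, false_or, if_false, hx, hy, and_true] at h2 ⊢
          simp only [h2, zero_add]
      · intro y _ hy
        rw [mem_st] at hy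
        simp [hy]
    · intro x _ hx
      rw [mem_st] at hx
      simp [hx]
  rw [h1]
  simp only [sum_add_distrib]
  have h3 : ∑ x : Fin n, ∑ y : Fin n, (if x.val < y.val ∧ p.getD y.val 0 = x.val ∧
      m.testBit x = true ∧ m.testBit y = true then 1 else 0) = ec m p 0 := by
    rw [sum_comm, ec_eq, hlen]
    have h4 : ∀ y : Fin n, (∑ x : Fin n, if x.val < y.val ∧ p.getD y.val 0 = x.val ∧
        m.testBit x = true ∧ m.testBit y = true then 1 else 0) =
        (fun i : ℕ => if decide (p.getD i 0 < 0 + i) && (m.testBit (0 + i) &&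
          m.testBit (p.getD i 0)) then 1 else 0) y := by
      intro y
      simp only [zero_add]
      by_cases h5 : p.getD y.val 0 < y.val
      · have hlt : p.getD y.val 0 < n := h5.trans y.2
        rw [sum_eq_single (⟨p.getD y.val 0, hlt⟩ : Fin n)]
        · simp only [h5, true_and, decide_true, Bool.true_and, Bool.and_eq_true]
          congr 1
          rw [and_comm]
        · intro x _ hx
          rw [if_neg]
          rintro ⟨-, h6, -⟩
          exact hx (Fin.ext h6.symm)
        · intro h
          exact absurd (mem_univ _) h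
      · have h9 : decide (p.getD y.val 0 < y.val) = false := decide_eq_false h5
        simp only [h9, Bool.false_and, Bool.false_eq_true, if_false]
        refine sum_eq_zero fun x _ => ?_
        rw [if_neg]
        rintro ⟨h6, h7, -⟩
        omega
    rw [sum_congr rfl fun y _ => h4 y, Fin.sum_univ_eq_sum_range
      (fun i : ℕ => if decide (p.getD i 0 < 0 + i) && (m.testBit (0 + i) &&
          m.testBit (p.getD i 0)) then 1 else 0) n]
  have h8 : ∑ x : Fin n, ∑ y : Fin n, (if y.val < x.val ∧ p.getD x.val 0 = y.val ∧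
      m.testBit y = true ∧ m.testBit x = true then 1 else 0) = ec m p 0 := by
    rw [sum_comm]
    exact h3
  rw [h3, h8]
  ring

lemma st_bij (n : ℕ) : Function.Bijective fun m : Fin (2 ^ n) => st n m := by
  rw [Fintype.bijective_iff_injective_and_card]
  refine ⟨?_, by simp⟩
  intro a b hab
  apply Fin.ext
  apply Nat.eq_of_testBit_eq
  intro i
  by_cases hi : i < n
  · have h1 : (⟨i, hi⟩ : Fin n) ∈ st n a ↔ (⟨i, hi⟩ : Fin n) ∈ st n b := by
      simp only at hab
      rw [hab]
    rw [mem_st, mem_st] at h1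
    simp only at h1
    cases h2 : (a : ℕ).testBit i <;> cases h3 : (b : ℕ).testBit i <;> simp_all
  · rw [Nat.testBit_lt_two_pow (lt_of_lt_of_le a.2 (Nat.pow_le_pow_right (by norm_num) (by omega))),
      Nat.testBit_lt_two_pow (lt_of_lt_of_le b.2 (Nat.pow_le_pow_right (by norm_num) (by omega)))]

def numS (n : ℕ) (p : List ℕ) : ℕ := ∑ m ∈ range (2 ^ n), if ec m p 0 = 1 then 1 else 0
def numT (n : ℕ) (p : List ℕ) : ℕ := ∑ m ∈ range (2 ^ n), if ec m p 0 = 1 then pc m n else 0

lemma sum_TG {n : ℕ} {p : List ℕ} (hlen : p.length = n) (hp : ∀ y < n, 1 ≤ y → p.getD y 0 < y)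
    (g : ℕ → ℕ) : ∑ S ∈ NI (TG n p), g S.card =
      ∑ m ∈ range (2 ^ n), if ec m p 0 = 1 then g (pc m n) else 0 := by
  classical
  unfold NI
  rw [sum_filter, ← Fin.sum_univ_eq_sum_range
    (fun m => if ec m p 0 = 1 then g (pc m n) else 0) (2 ^ n)]
  symm
  refine Fintype.sum_bijective _ (st_bij n) _ _ fun m => ?_
  simp only [ds_st hlen hp, card_st]
  by_cases h : ec m p 0 = 1
  · rw [if_pos h, if_pos (by omega)]
  · rw [if_neg h, if_neg (by omega)]

lemma sg_TG {n : ℕ} {p : List ℕ} (hlen : p.length = n) (hp : ∀ y < n, 1 ≤ y → p.getD y 0 < y) :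
    sg (TG n p) = numS n p := by
  have := sum_TG hlen hp (fun _ => 1)
  unfold sg numS
  rw [← this]
  simp

lemma tt_TG {n : ℕ} {p : List ℕ} (hlen : p.length = n) (hp : ∀ y < n, 1 ≤ y → p.getD y 0 < y) :
    tt (TG n p) = numT n p := sum_TG hlen hp id

/-- the parent list of `R_n` -/
def pR (n : ℕ) : List ℕ := List.replicate (n - 1) 0 ++ [1]

lemma pR_facts : ∀ n < 10, 4 ≤ n → (pR n).length = n ∧ (∀ y < n, 1 ≤ y → (pR n).getD y 0 < y) ∧
    (∀ y < n, (pR n).getD y 0 = if y + 1 = n then 1 else 0) := by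
  decide +kernel

lemma Rn_TG (n : ℕ) (hn : 4 ≤ n) (hn' : n < 10) : Rn n = TG n (pR n) := by
  ext x y
  rw [TG_adj, (pR_facts n hn' hn).2.2 x x.2, (pR_facts n hn' hn).2.2 y y.2]
  have hx := x.2
  have hy := y.2
  simp only [Rn, SimpleGraph.fromRel_adj, Ne, Fin.ext_iff]
  split_ifs <;> omega

/-- values for `R_n` -/
def valR : ℕ → ℕ × ℕ
  | 4 => (12, 5) | 5 => (24, 9) | 6 => (45, 15) | 7 => (86, 25) | 8 => (171, 43) | 9 => (352, 77)
  | _ => (0, 0)

lemma valR_check : ∀ n < 10, 4 ≤ n → numT n (pR n) = (valR n).1 ∧ numS n (pR n) = (valR n).2 := by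
  decide +kernel

lemma final_check : ∀ n < 10, 4 ≤ n → ∀ p ∈ LL n,
    numT n p * (valR n).2 ≤ (valR n).1 * numS n p := by
  decide +kernel

theorem small {V : Type} [Fintype V] (G : SimpleGraph V) {n : ℕ} (hc : Fintype.card V = n)
    (hn : 4 ≤ n) (hn' : n < 10) (hT : G.IsTree) : tt G * sg (Rn n) ≤ tt (Rn n) * sg G := by
  obtain ⟨p, hp, e, he⟩ := enum n (by omega) hn' V G hc hT
  have hl := len_check n hn' p hp
  have hr := pR_facts n hn' hn
  have hv := valR_check n hn' hn
  rw [he, sg_iso, tt_iso, Rn_TG n hn hn', sg_TG hl.1 hl.2, tt_TG hl.1 hl.2, sg_TG hr.1 hr.2.1,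
    tt_TG hr.1 hr.2.1, hv.1, hv.2]
  exact final_check n hn' hn p hp

end Q117.AV
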