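import Pool.Agent.Q117.AV.Num

/-! `R_n` is a tree; positivity. -/

set_option autoImplicit false

namespace Q117.AV

open SimpleGraph Finset Q117.NE

section parent
variable {V : Type*}

/-- graph of a parent function -/
def parG (r : V) (p : V → V) (d : V → ℕ) (hd : ∀ v, v ≠ r → d v = d (p v) + 1) :
    SimpleGraph V where
  Adj u v := (u ≠ r ∧ p u = v) ∨ (v ≠ r ∧ p v = u)
  symm := ⟨fun _ _ h => h.symm⟩
  loopless := ⟨fun u h => by
    rcases h with ⟨h1, h2⟩ | ⟨h1, h2⟩ <;>
    · have := hd u h1
      rw [h2] at this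
      omega⟩

variable {r : V} {p : V → V} {d : V → ℕ} {hd : ∀ v, v ≠ r → d v = d (p v) + 1}

theorem adj_par {v : V} (hv : v ≠ r) : (parG r p d hd).Adj v (p v) := Or.inl ⟨hv, rfl⟩

theorem reach_root (v : V) : (parG r p d hd).Reachable v r := by
  induction hn : d v generalizing v with
  | zero =>
    by_cases hv : v = r
    · rw [hv]
    · have := hd v hv; omega
  | succ n ih =>
    by_cases hv : v = r
    · rw [hv]
    · have h1 := hd v hv
      exact (adj_par hv).reachable.trans (ih (p v) (by omega))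

theorem par_isTree [Finite V] : (parG r p d hd).IsTree := by
  classical
  have := Fintype.ofFinite V
  have hconn : (parG r p d hd).Connected := by
    have : Nonempty V := ⟨r⟩
    exact SimpleGraph.Connected.mk fun u v => (reach_root u).trans (reach_root v).symm
  rw [SimpleGraph.isTree_iff_connected_and_card]
  refine ⟨hconn, ?_⟩
  have hE : (parG r p d hd).edgeSet =
      (((Finset.univ.erase r).image (fun v => s(v, p v)) : Finset (Sym2 V)) : Set (Sym2 V)) := by
    ext e
    induction e with
    | _ u v =>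
    simp only [SimpleGraph.mem_edgeSet, Finset.coe_image, Set.mem_image, Finset.mem_coe,
      Finset.mem_erase, Finset.mem_univ, and_true]
    constructor
    · rintro (⟨h1, h2⟩ | ⟨h1, h2⟩)
      · exact ⟨u, h1, by rw [h2]⟩
      · exact ⟨v, h1, by rw [h2, Sym2.eq_swap]⟩
    · rintro ⟨w, hw, h⟩
      rw [Sym2.eq_iff] at h
      rcases h with ⟨h1, h2⟩ | ⟨h1, h2⟩
      · subst h1; exact Or.inl ⟨hw, h2⟩
      · subst h1; exact Or.inr ⟨hw, h2⟩
  rw [hE, Nat.card_coe_set_eq, Set.ncard_coe_finset, Finset.card_image_of_injOn]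
  · rw [Finset.card_erase_of_mem (Finset.mem_univ r), Finset.card_univ, Nat.card_eq_fintype_card]
    have : 0 < Fintype.card V := Fintype.card_pos_iff.mpr ⟨r⟩
    omega
  · intro u hu v hv huv
    simp only [Finset.coe_erase, Finset.coe_univ, Set.mem_sdiff, Set.mem_univ, true_and,
      Set.mem_singleton_iff] at hu hv
    have h : s(u, p u) = s(v, p v) := huv
    rw [Sym2.eq_iff] at h
    rcases h with ⟨h1, _⟩ | ⟨h1, h2⟩
    · exact h1
    · have h3 := hd u hu
      have h4 := hd v hv
      rw [h2] at h3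
      rw [← h1] at h4
      omega

end parent

theorem Rn_isTree (n : ℕ) (hn : 4 ≤ n) : (Rn n).IsTree := by
  let r : Fin n := ⟨0, by omega⟩
  let p : Fin n → Fin n := fun v => if v.val + 1 = n then ⟨1, by omega⟩ else ⟨0, by omega⟩
  let d : Fin n → ℕ := fun v => if v.val = 0 then 0 else if v.val + 1 = n then 2 else 1
  have hd : ∀ v, v ≠ r → d v = d (p v) + 1 := by
    intro v hv
    have hv0 : v.val ≠ 0 := fun h => hv (Fin.ext h)
    by_cases h : v.val + 1 = n
    · simp only [d, p, h, hv0, if_true, if_false]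
      rw [if_neg (by norm_num), if_neg (by omega)]
    · simp only [d, p, h, hv0, if_true, if_false]
  have : Rn n = parG r p d hd := by
    ext x y
    have hx := x.2
    have hy := y.2
    have hp : ∀ a b : Fin n, p a = b ↔ (a.val + 1 = n ∧ b.val = 1) ∨ (a.val + 1 ≠ n ∧ b.val = 0) := by
      intro a b
      simp only [p]
      split_ifs with h
      · constructor
        · intro e
          exact Or.inl ⟨h, by rw [← e]⟩
        · rintro (⟨_, e⟩ | ⟨e, _⟩)
          · exact Fin.ext e.symm
          · exact absurd h e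
      · constructor
        · intro e
          exact Or.inr ⟨h, by rw [← e]⟩
        · rintro (⟨e, _⟩ | ⟨_, e⟩)
          · exact absurd e h
          · exact Fin.ext e.symm
    change (Rn n).Adj x y ↔ (x ≠ r ∧ p x = y) ∨ (y ≠ r ∧ p y = x)
    rw [hp, hp]
    simp only [Rn, SimpleGraph.fromRel_adj, Ne, Fin.ext_iff, r]
    omega
  rw [this]
  exact par_isTree

lemma sg_pos {V : Type*} [Fintype V] (G : SimpleGraph V) (hT : G.IsTree)
    (hn : 2 ≤ Fintype.card V) : 0 < sg G := by
  classical
  obtain ⟨x⟩ := hT.connected.nonempty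
  obtain ⟨y, hxy⟩ := exists_nbr G hT hn x
  unfold sg
  refine card_pos.2 ⟨{x, y}, ?_⟩
  refine ((FF_iff G hxy {x, y}).1 ?_).1
  rw [mem_FF]
  refine ⟨by simp, by simp, ?_⟩
  intro a ha b hb hab
  rw [mem_insert, mem_singleton] at ha hb
  rcases ha with rfl | rfl <;> rcases hb with rfl | rfl
  · exact absurd rfl hab.ne
  · exact Or.inl ⟨rfl, rfl⟩
  · exact Or.inr ⟨rfl, rfl⟩
  · exact absurd rfl hab.ne

end Q117.AV
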