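import Pool.Agent.Q117.AV.Tree

/-! 1-nearly independent sets in trees: the tree `R_n`. -/

set_option autoImplicit false

namespace Q117.AV

open SimpleGraph Finset Q117.NE

section
variable {V : Type*} [Fintype V] (G : SimpleGraph V)

lemma exists_pair {S : Finset V} (hS : S ∈ NI G) : ∃ x ∈ S, ∃ y ∈ S, G.Adj x y ∧ S ∈ FF G x y := by
  classical
  have h := hS
  unfold NI at h
  rw [mem_filter, ← card_PS] at h
  obtain ⟨p, hp⟩ := card_pos.1 (show 0 < (PS G S).card by omega)
  unfold PS at hp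
  rw [mem_filter] at hp
  exact ⟨p.1, hp.2.1, p.2, hp.2.2.1, hp.2.2.2, (FF_iff G hp.2.2.2 S).2 ⟨hS, hp.2.1, hp.2.2.1⟩⟩

lemma two_sum_card {K : Finset V} : 2 * ∑ J ∈ K.powerset, J.card = K.card * 2 ^ K.card := by
  classical
  have h1 : ∑ J ∈ K.powerset, J.card = ∑ J ∈ K.powerset, (K \ J).card := by
    refine sum_nbij' (fun J => K \ J) (fun J => K \ J) ?_ ?_ ?_ ?_ ?_
    · intro J _
      exact mem_powerset.2 sdiff_subset
    · intro J _
      exact mem_powerset.2 sdiff_subset
    · intro J hJ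
      exact _root_.sdiff_sdiff_eq_self (mem_powerset.1 hJ)
    · intro J hJ
      exact _root_.sdiff_sdiff_eq_self (mem_powerset.1 hJ)
    · intro J hJ
      rw [_root_.sdiff_sdiff_eq_self (mem_powerset.1 hJ)]
  rw [two_mul]
  nth_rewrite 2 [h1]
  rw [← sum_add_distrib]
  have h2 : ∀ J ∈ K.powerset, J.card + (K \ J).card = K.card := by
    intro J hJ
    rw [card_sdiff_of_subset (mem_powerset.1 hJ)]
    have := card_le_card (mem_powerset.1 hJ)
    omega
  rw [sum_congr rfl h2, sum_const, card_powerset, smul_eq_mul, mul_comm]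

lemma pow_bound (k : ℕ) (hk : 7 ≤ k) : 6 * k ^ 2 ≤ 2 * 2 ^ k + 7 * k + 2 := by
  induction k, hk using Nat.le_induction with
  | base => norm_num
  | succ k hk ih =>
    rw [pow_succ 2 k]
    nlinarith

theorem R_bound {u v w : V} (hR : IsR G u v w) (hn : 10 ≤ Fintype.card V) :
    (3 * Fintype.card V + 1) * sg G ≤ 6 * tt G := by
  classical
  obtain ⟨huv, huw, hvw, hadj⟩ := hR
  set n := Fintype.card V with hnn
  set K : Finset V := univ \ {u, v, w} with hK
  have hKc : K.card + 3 = n := by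
    have h3 : ({u, v, w} : Finset V).card = 3 := by
      rw [card_eq_three]
      exact ⟨u, v, w, huv, huw, hvw, rfl⟩
    rw [hK, card_sdiff_of_subset (subset_univ _), card_univ, h3]
    omega
  have hKm : ∀ x, x ∈ K ↔ x ≠ u ∧ x ≠ v ∧ x ≠ w := by
    intro x
    rw [hK]
    simp
  let f : Finset V → ℤ := fun S => (3 * n + 1 : ℤ) - 6 * S.card
  -- part (a)
  have ha : (NI G).filter (fun S => w ∉ S) = K.powerset.image fun J => insert u (insert v J) := by
    ext S
    rw [mem_filter, mem_image]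
    constructor
    · rintro ⟨hS, hw⟩
      obtain ⟨x, hx, y, hy, hxy, hF⟩ := exists_pair G hS
      have hxw : x ≠ w := fun e => hw (e ▸ hx)
      have hyw : y ≠ w := fun e => hw (e ▸ hy)
      have hm : u ∈ S ∧ v ∈ S := by
        rcases (hadj x y).1 hxy with h | h | h | h
        · exact ⟨h.1 ▸ hx, h.2 ▸ hy⟩
        · exact ⟨h.2 ▸ hy, h.1 ▸ hx⟩
        · exact absurd h.1 hxw
        · exact absurd h.1 hyw
      refine ⟨(S.erase u).erase v, ?_, ?_⟩
      · rw [mem_powerset]
        intro z hz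
        rw [mem_erase, mem_erase] at hz
        rw [hKm]
        exact ⟨hz.2.1, hz.1, fun e => hw (e ▸ hz.2.2)⟩
      · rw [insert_erase (mem_erase.2 ⟨huv.symm, hm.2⟩), insert_erase hm.1]
    · rintro ⟨J, hJ, rfl⟩
      rw [mem_powerset] at hJ
      have hwS : w ∉ insert u (insert v J) := by
        rw [mem_insert, mem_insert, not_or, not_or]
        exact ⟨huw.symm, hvw.symm, fun h => ((hKm w).1 (hJ h)).2.2 rfl⟩
      refine ⟨?_, hwS⟩
      have hA : G.Adj u v := (hadj u v).2 (Or.inl ⟨rfl, rfl⟩)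
      have : insert u (insert v J) ∈ FF G u v := by
        rw [mem_FF]
        refine ⟨mem_insert_self _ _, mem_insert_of_mem (mem_insert_self _ _), ?_⟩
        intro x hx y hy hxy
        rcases (hadj x y).1 hxy with h | h | h | h
        · exact Or.inl h
        · exact Or.inr h
        · exact absurd (h.1 ▸ hx) hwS
        · exact absurd (h.1 ▸ hy) hwS
      exact ((FF_iff G hA _).1 this).1
  have hcardJ : ∀ J ∈ K.powerset, (insert u (insert v J)).card = J.card + 2 := by
    intro J hJ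
    rw [mem_powerset] at hJ
    rw [card_insert_of_notMem, card_insert_of_notMem]
    · intro h
      exact ((hKm v).1 (hJ h)).2.1 rfl
    · rw [mem_insert, not_or]
      exact ⟨huv, fun h => ((hKm u).1 (hJ h)).1 rfl⟩
  have hinj : Set.InjOn (fun J => insert u (insert v J)) (K.powerset : Set (Finset V)) := by
    intro J hJ J' hJ' h
    rw [mem_coe, mem_powerset] at hJ hJ'
    simp only at h
    have key : ∀ J : Finset V, J ⊆ K → ((insert u (insert v J)).erase u).erase v = J := by
      intro J hJ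
      rw [erase_insert, erase_insert]
      · intro h
        exact ((hKm v).1 (hJ h)).2.1 rfl
      · rw [mem_insert, not_or]
        exact ⟨huv, fun h => ((hKm u).1 (hJ h)).1 rfl⟩
    rw [← key J hJ, ← key J' hJ', h]
  have hsa : ∑ S ∈ (NI G).filter (fun S => w ∉ S), f S = - (2 * 2 ^ K.card) := by
    rw [ha, sum_image hinj]
    have h1 : ∀ J ∈ K.powerset, f (insert u (insert v J)) = (3 * n + 1 - 12 : ℤ) - 6 * J.card := by
      intro J hJ
      simp only [f]
      rw [hcardJ J hJ]
      push_cast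
      ring
    rw [sum_congr rfl h1, sum_sub_distrib, sum_const, card_powerset, ← mul_sum]
    have h2 := two_sum_card (K := K)
    have h3 : (2 : ℤ) * ∑ J ∈ K.powerset, (J.card : ℤ) = K.card * 2 ^ K.card := by
      exact_mod_cast h2
    have h4 : (n : ℤ) = K.card + 3 := by exact_mod_cast hKc.symm
    rw [h4, nsmul_eq_mul]
    push_cast
    linear_combination (-3 : ℤ) * h3
  -- part (b)
  let B1 : Finset (Finset V) := (insert v K).image fun y => {w, y}
  let B2 : Finset (Finset V) := K.image fun y => {w, y, u}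
  have hb : (NI G).filter (fun S => ¬ w ∉ S) ⊆ B1 ∪ B2 := by
    intro S hS
    rw [mem_filter, not_not] at hS
    obtain ⟨hS, hw⟩ := hS
    -- there is a neighbour of `w` in `S`
    have hex : ∃ y ∈ S, y ≠ w ∧ y ≠ u := by
      obtain ⟨x, hx, y, hy, hxy, -⟩ := exists_pair G hS
      rcases (hadj x y).1 hxy with h | h | h | h
      · exact ⟨v, h.2 ▸ hy, hvw, huv.symm⟩
      · exact ⟨v, h.1 ▸ hx, hvw, huv.symm⟩
      · exact ⟨y, hy, h.2.1, h.2.2⟩
      · exact ⟨x, hx, h.2.1, h.2.2⟩
    obtain ⟨y, hy, hyw, hyu⟩ := hex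
    have hwy : G.Adj w y := (hadj w y).2 (Or.inr (Or.inr (Or.inl ⟨rfl, hyw, hyu⟩)))
    have hF := (FF_iff G hwy S).2 ⟨hS, hw, hy⟩
    rw [mem_FF] at hF
    have honly : ∀ z ∈ S, z = w ∨ z = y ∨ z = u := by
      intro z hz
      by_contra hcon
      push Not at hcon
      have hwz : G.Adj w z := (hadj w z).2 (Or.inr (Or.inr (Or.inl ⟨rfl, hcon.1, hcon.2.2⟩)))
      rcases hF.2.2 w hw z hz hwz with h | h
      · exact hcon.2.1 h.2
      · exact hyw h.1.symm
    rw [mem_union]
    by_cases hu : u ∈ S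
    · right
      have hyv : y ≠ v := by
        rintro rfl
        have huy : G.Adj u y := (hadj u y).2 (Or.inl ⟨rfl, rfl⟩)
        rcases hF.2.2 u hu y hy huy with h | h
        · exact huw h.1
        · exact hyu h.1.symm
      rw [mem_image]
      refine ⟨y, (hKm y).2 ⟨hyu, hyv, hyw⟩, ?_⟩
      ext z
      simp only [mem_insert, mem_singleton]
      constructor
      · rintro (rfl | rfl | rfl)
        · exact hw
        · exact hy
        · exact hu
      · exact honly z
    · left
      rw [mem_image]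
      refine ⟨y, ?_, ?_⟩
      · rw [mem_insert, hKm]
        by_cases hyv : y = v
        · exact Or.inl hyv
        · exact Or.inr ⟨hyu, hyv, hyw⟩
      · ext z
        simp only [mem_insert, mem_singleton]
        constructor
        · rintro (rfl | rfl)
          · exact hw
          · exact hy
        · intro hz
          rcases honly z hz with h | h | h
          · exact Or.inl h
          · exact Or.inr h
          · exact absurd (h ▸ hz) hu
  have hvK : v ∉ K := fun h => ((hKm v).1 h).2.1 rfl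
  have hn' : (n : ℤ) = K.card + 3 := by exact_mod_cast hKc.symm
  have hk7 : (7 : ℤ) ≤ K.card := by
    have : 7 ≤ K.card := by omega
    exact_mod_cast this
  have hf1 : ∀ S ∈ B1, f S = 3 * K.card - 2 := by
    intro S hS
    rw [mem_image] at hS
    obtain ⟨y, hy, rfl⟩ := hS
    have hyw : w ≠ y := by
      rintro rfl
      rw [mem_insert, hKm] at hy
      rcases hy with h | h
      · exact hvw h.symm
      · exact h.2.2 rfl
    simp only [f]
    rw [card_pair hyw, hn']
    push_cast
    ring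
  have hf2 : ∀ S ∈ B2, f S = 3 * K.card - 8 := by
    intro S hS
    rw [mem_image] at hS
    obtain ⟨y, hy, rfl⟩ := hS
    rw [hKm] at hy
    have h3 : ({w, y, u} : Finset V).card = 3 := by
      rw [card_eq_three]
      exact ⟨w, y, u, hy.2.2.symm, huw.symm, hy.1, rfl⟩
    simp only [f]
    rw [h3, hn']
    push_cast
    ring
  have hsb : ∑ S ∈ (NI G).filter (fun S => ¬ w ∉ S), f S ≤
      (K.card + 1) * (3 * K.card - 2) + K.card * (3 * K.card - 8) := by
    have hnn1 : ∀ S ∈ B1 ∪ B2, 0 ≤ f S := by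
      intro S hS
      rw [mem_union] at hS
      rcases hS with h | h
      · rw [hf1 S h]; linarith
      · rw [hf2 S h]; linarith
    have h1 : ∑ S ∈ (NI G).filter (fun S => ¬ w ∉ S), f S ≤ ∑ S ∈ B1 ∪ B2, f S :=
      sum_le_sum_of_subset_of_nonneg hb fun S hS _ => hnn1 S hS
    have h2 : ∑ S ∈ B1 ∪ B2, f S ≤ ∑ S ∈ B1, f S + ∑ S ∈ B2, f S := by
      rw [← sum_union_inter]
      have : 0 ≤ ∑ S ∈ B1 ∩ B2, f S := sum_nonneg fun S hS =>
        hnn1 S (mem_union_left _ (mem_inter.1 hS).1)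
      linarith
    have h3 : ∑ S ∈ B1, f S ≤ (K.card + 1) * (3 * K.card - 2) := by
      rw [sum_congr rfl hf1, sum_const, nsmul_eq_mul]
      have h4 : B1.card ≤ K.card + 1 := by
        refine card_image_le.trans ?_
        rw [card_insert_of_notMem hvK]
      have h5 : (B1.card : ℤ) ≤ K.card + 1 := by exact_mod_cast h4
      have h6 : (0 : ℤ) ≤ 3 * K.card - 2 := by linarith
      exact mul_le_mul_of_nonneg_right h5 h6
    have h3' : ∑ S ∈ B2, f S ≤ K.card * (3 * K.card - 8) := by
      rw [sum_congr rfl hf2, sum_const, nsmul_eq_mul]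
      have h4 : B2.card ≤ K.card := card_image_le
      have h5 : (B2.card : ℤ) ≤ K.card := by exact_mod_cast h4
      have h6 : (0 : ℤ) ≤ 3 * K.card - 8 := by linarith
      exact mul_le_mul_of_nonneg_right h5 h6
    linarith
  have hpow : (6 : ℤ) * K.card ^ 2 ≤ 2 * 2 ^ K.card + 7 * K.card + 2 := by
    exact_mod_cast pow_bound K.card (by omega)
  have htot : ∑ S ∈ NI G, f S ≤ 0 := by
    rw [← sum_filter_add_sum_filter_not (NI G) (fun S => w ∉ S), hsa]
    nlinarith
  have hfin : ∑ S ∈ NI G, f S = (3 * n + 1) * (sg G : ℤ) - 6 * (tt G : ℤ) := by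
    simp only [f]
    rw [sum_sub_distrib, sum_const, ← mul_sum, nsmul_eq_mul]
    unfold sg tt
    push_cast
    ring
  rw [hfin] at htot
  have : ((3 * n + 1) * sg G : ℤ) ≤ 6 * tt G := by linarith
  exact_mod_cast this

end

/-! ### isomorphisms -/

section iso
variable {V W : Type*} [Fintype V] [Fintype W] (H : SimpleGraph W) (e : V ≃ W)

lemma NI_map (S : Finset V) : S ∈ NI (H.comap e) ↔ S.map e.toEmbedding ∈ NI H := by
  classical
  unfold NI
  rw [mem_filter, mem_filter, ds_congr (H.comap e) H e.toEmbedding (fun u v => Iff.rfl)]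
  simp

lemma sum_iso (g : ℕ → ℕ) : ∑ S ∈ NI (H.comap e), g S.card = ∑ S ∈ NI H, g S.card := by
  refine sum_nbij' (fun S => S.map e.toEmbedding) (fun S => S.map e.symm.toEmbedding) ?_ ?_ ?_ ?_ ?_
  · intro S hS
    exact (NI_map H e S).1 hS
  · intro S hS
    rw [NI_map, Finset.map_map]
    simpa using hS
  · intro S _
    rw [Finset.map_map]
    simp
  · intro S _
    rw [Finset.map_map]
    simp
  · intro S _
    simp

lemma sg_iso : sg (H.comap e) = sg H := by
  have := sum_iso H e (fun _ => 1)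
  simpa [sg] using this

lemma tt_iso : tt (H.comap e) = tt H := sum_iso H e id

end iso

/-- the tree `R_n` -/
def Rn (n : ℕ) : SimpleGraph (Fin n) := SimpleGraph.fromRel fun x y =>
  (x.val = 0 ∧ 1 ≤ y.val ∧ y.val + 2 ≤ n) ∨ (x.val = 1 ∧ y.val + 1 = n)

lemma Rn_isR (n : ℕ) (hn : 4 ≤ n) :
    IsR (Rn n) ⟨n - 1, by omega⟩ ⟨1, by omega⟩ ⟨0, by omega⟩ := by
  refine ⟨?_, ?_, ?_, ?_⟩
  · rw [Ne, Fin.mk.injEq]; omega
  · rw [Ne, Fin.mk.injEq]; omega
  · rw [Ne, Fin.mk.injEq]; omega
  · intro x y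
    have hx := x.2
    have hy := y.2
    simp only [Rn, SimpleGraph.fromRel_adj, Ne, Fin.ext_iff]
    omega

lemma exists_equiv {V : Type*} [Fintype V] {n : ℕ} (hc : Fintype.card V = n) (hn : 4 ≤ n)
    {u v w : V} (h1 : u ≠ v) (h2 : u ≠ w) (h3 : v ≠ w) : ∃ e : V ≃ Fin n,
    e u = ⟨n - 1, by omega⟩ ∧ e v = ⟨1, by omega⟩ ∧ e w = ⟨0, by omega⟩ := by
  classical
  let e0 : V ≃ Fin n := Fintype.equivFinOfCardEq hc
  let a : Fin n := ⟨0, by omega⟩
  let b : Fin n := ⟨1, by omega⟩
  let c : Fin n := ⟨n - 1, by omega⟩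
  have hab : a ≠ b := by simp [a, b]
  have hac : a ≠ c := by simp only [a, c, Ne, Fin.mk.injEq]; omega
  have hbc : b ≠ c := by simp only [b, c, Ne, Fin.mk.injEq]; omega
  let e1 := e0.trans (Equiv.swap (e0 w) a)
  have e1w : e1 w = a := by simp [e1]
  let e2 := e1.trans (Equiv.swap (e1 v) b)
  have e2v : e2 v = b := by simp [e2]
  have e2w : e2 w = a := by
    have h : e1 w ≠ e1 v := fun h => h3 (e1.injective h).symm
    rw [e1w] at h
    simp only [e2, Equiv.trans_apply, e1w]
    exact Equiv.swap_apply_of_ne_of_ne h hab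
  let e3 := e2.trans (Equiv.swap (e2 u) c)
  have e3u : e3 u = c := by simp [e3]
  have e3v : e3 v = b := by
    have h : e2 v ≠ e2 u := fun h => h1 (e2.injective h).symm
    rw [e2v] at h
    simp only [e3, Equiv.trans_apply, e2v]
    exact Equiv.swap_apply_of_ne_of_ne h hbc
  have e3w : e3 w = a := by
    have h : e2 w ≠ e2 u := fun h => h2 (e2.injective h).symm
    rw [e2w] at h
    simp only [e3, Equiv.trans_apply, e2w]
    exact Equiv.swap_apply_of_ne_of_ne h hac
  exact ⟨e3, e3u, e3v, e3w⟩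

theorem isR_iso {V : Type*} [Fintype V] (G : SimpleGraph V) {n : ℕ} (hc : Fintype.card V = n)
    (hn : 4 ≤ n) {u v w : V} (hR : IsR G u v w) : ∃ e : V ≃ Fin n, G = (Rn n).comap e := by
  obtain ⟨h1, h2, h3, h4⟩ := hR
  obtain ⟨e, eu, ev, ew⟩ := exists_equiv hc hn h1 h2 h3
  refine ⟨e, ?_⟩
  ext x y
  have h5 := (Rn_isR n hn).2.2.2 (e x) (e y)
  rw [← eu, ← ev, ← ew] at h5
  simp only [EmbeddingLike.apply_eq_iff_eq, Ne] at h5
  rw [h4, SimpleGraph.comap_adj, h5]

/-- the case `n ≥ 10` -/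
theorem large {V : Type*} [Fintype V] (G : SimpleGraph V) {n : ℕ} (hc : Fintype.card V = n)
    (hn : 10 ≤ n) (hT : G.IsTree) : tt G * sg (Rn n) ≤ tt (Rn n) * sg G := by
  by_cases hno : ∃ a b c, IsR G a b c
  · obtain ⟨a, b, c, h⟩ := hno
    obtain ⟨e, he⟩ := isR_iso G hc (by omega) h
    have h1 : sg G = sg (Rn n) := by rw [he]; exact sg_iso _ _
    have h2 : tt G = tt (Rn n) := by rw [he]; exact tt_iso _ _
    rw [h1, h2]
  · have h1 := general G hT (by omega) hno
    have h2 := R_bound (Rn n) (Rn_isR n (by omega)) (by rw [Fintype.card_fin]; exact hn)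
    rw [Fintype.card_fin] at h2
    rw [hc] at h1
    have h3 : 6 * (tt G * sg (Rn n)) ≤ 6 * (tt (Rn n) * sg G) := by
      calc 6 * (tt G * sg (Rn n)) = (6 * tt G) * sg (Rn n) := by ring
        _ ≤ ((3 * n + 1) * sg G) * sg (Rn n) := Nat.mul_le_mul_right _ h1
        _ = ((3 * n + 1) * sg (Rn n)) * sg G := by ring
        _ ≤ (6 * tt (Rn n)) * sg G := Nat.mul_le_mul_right _ h2
        _ = _ := by ring
    omega

end Q117.AV
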