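import Pool.Agent.Q117.AV.RTree

/-! 1-nearly independent sets in trees: all trees with at most 9 vertices. -/

set_option autoImplicit false

namespace Q117.AV

open SimpleGraph Finset Q117.NE

def LL : ℕ → List (List ℕ)
  | 1 => [[0]]
  | 2 => [[0, 0]]
  | 3 => [[0, 0, 0]]
  | 4 => [[0, 0, 0, 0],
    [0, 0, 0, 1]]
  | 5 => [[0, 0, 0, 0, 0],
    [0, 0, 0, 0, 1],
    [0, 0, 0, 1, 2]]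
  | 6 => [[0, 0, 0, 0, 0, 0],
    [0, 0, 0, 0, 0, 1],
    [0, 0, 0, 0, 1, 1],
    [0, 0, 0, 0, 1, 2],
    [0, 0, 0, 0, 1, 4],
    [0, 0, 0, 1, 2, 3]]
  | 7 => [[0, 0, 0, 0, 0, 0, 0],
    [0, 0, 0, 0, 0, 0, 1],
    [0, 0, 0, 0, 0, 1, 1],
    [0, 0, 0, 0, 0, 1, 2],
    [0, 0, 0, 0, 0, 1, 5],
    [0, 0, 0, 0, 1, 1, 2],
    [0, 0, 0, 0, 1, 2, 3],
    [0, 0, 0, 0, 1, 2, 4],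
    [0, 0, 0, 0, 1, 4, 4],
    [0, 0, 0, 0, 1, 4, 5],
    [0, 0, 0, 1, 2, 3, 4]]
  | 8 => [[0, 0, 0, 0, 0, 0, 0, 0],
    [0, 0, 0, 0, 0, 0, 0, 1],
    [0, 0, 0, 0, 0, 0, 1, 1],
    [0, 0, 0, 0, 0, 0, 1, 2],
    [0, 0, 0, 0, 0, 0, 1, 6],
    [0, 0, 0, 0, 0, 1, 1, 1],
    [0, 0, 0, 0, 0, 1, 1, 2],
    [0, 0, 0, 0, 0, 1, 1, 5],
    [0, 0, 0, 0, 0, 1, 2, 3],
    [0, 0, 0, 0, 0, 1, 2, 5],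
    [0, 0, 0, 0, 0, 1, 5, 5],
    [0, 0, 0, 0, 0, 1, 5, 6],
    [0, 0, 0, 0, 1, 1, 2, 2],
    [0, 0, 0, 0, 1, 1, 2, 3],
    [0, 0, 0, 0, 1, 1, 2, 4],
    [0, 0, 0, 0, 1, 1, 2, 6],
    [0, 0, 0, 0, 1, 2, 3, 4],
    [0, 0, 0, 0, 1, 2, 4, 4],
    [0, 0, 0, 0, 1, 2, 4, 5],
    [0, 0, 0, 0, 1, 2, 4, 6],
    [0, 0, 0, 0, 1, 4, 5, 5],
    [0, 0, 0, 0, 1, 4, 5, 6],
    [0, 0, 0, 1, 2, 3, 4, 5]]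
  | 9 => [[0, 0, 0, 0, 0, 0, 0, 0, 0],
    [0, 0, 0, 0, 0, 0, 0, 0, 1],
    [0, 0, 0, 0, 0, 0, 0, 1, 1],
    [0, 0, 0, 0, 0, 0, 0, 1, 2],
    [0, 0, 0, 0, 0, 0, 0, 1, 7],
    [0, 0, 0, 0, 0, 0, 1, 1, 1],
    [0, 0, 0, 0, 0, 0, 1, 1, 2],
    [0, 0, 0, 0, 0, 0, 1, 1, 6],
    [0, 0, 0, 0, 0, 0, 1, 2, 3],
    [0, 0, 0, 0, 0, 0, 1, 2, 6],
    [0, 0, 0, 0, 0, 0, 1, 6, 6],
    [0, 0, 0, 0, 0, 0, 1, 6, 7],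
    [0, 0, 0, 0, 0, 1, 1, 1, 2],
    [0, 0, 0, 0, 0, 1, 1, 2, 2],
    [0, 0, 0, 0, 0, 1, 1, 2, 3],
    [0, 0, 0, 0, 0, 1, 1, 2, 5],
    [0, 0, 0, 0, 0, 1, 1, 2, 7],
    [0, 0, 0, 0, 0, 1, 1, 5, 5],
    [0, 0, 0, 0, 0, 1, 1, 5, 6],
    [0, 0, 0, 0, 0, 1, 1, 5, 7],
    [0, 0, 0, 0, 0, 1, 2, 3, 4],
    [0, 0, 0, 0, 0, 1, 2, 3, 5],
    [0, 0, 0, 0, 0, 1, 2, 5, 5],
    [0, 0, 0, 0, 0, 1, 2, 5, 6],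
    [0, 0, 0, 0, 0, 1, 2, 5, 7],
    [0, 0, 0, 0, 0, 1, 5, 5, 5],
    [0, 0, 0, 0, 0, 1, 5, 5, 6],
    [0, 0, 0, 0, 0, 1, 5, 6, 6],
    [0, 0, 0, 0, 0, 1, 5, 6, 7],
    [0, 0, 0, 0, 1, 1, 2, 2, 3],
    [0, 0, 0, 0, 1, 1, 2, 2, 4],
    [0, 0, 0, 0, 1, 1, 2, 3, 4],
    [0, 0, 0, 0, 1, 1, 2, 3, 6],
    [0, 0, 0, 0, 1, 1, 2, 4, 6],
    [0, 0, 0, 0, 1, 1, 2, 6, 6],
    [0, 0, 0, 0, 1, 1, 2, 6, 7],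
    [0, 0, 0, 0, 1, 2, 3, 4, 4],
    [0, 0, 0, 0, 1, 2, 3, 4, 5],
    [0, 0, 0, 0, 1, 2, 3, 4, 7],
    [0, 0, 0, 0, 1, 2, 4, 4, 5],
    [0, 0, 0, 0, 1, 2, 4, 4, 6],
    [0, 0, 0, 0, 1, 2, 4, 5, 6],
    [0, 0, 0, 0, 1, 2, 4, 6, 6],
    [0, 0, 0, 0, 1, 2, 4, 6, 7],
    [0, 0, 0, 0, 1, 4, 5, 6, 6],
    [0, 0, 0, 0, 1, 4, 5, 6, 7],
    [0, 0, 0, 1, 2, 3, 4, 5, 6]]
  | _ => []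

def certs : ℕ → List (List ℕ × List ℕ)
  | 1 => [([0, 0], [0, 1])]
  | 2 => [([0, 0, 0], [0, 1, 2]),
    ([0, 0, 0], [1, 0, 2])]
  | 3 => [([0, 0, 0, 0], [0, 1, 2, 3]),
    ([0, 0, 0, 1], [0, 1, 2, 3]),
    ([0, 0, 0, 1], [0, 2, 1, 3])]
  | 4 => [([0, 0, 0, 0, 0], [0, 1, 2, 3, 4]),
    ([0, 0, 0, 0, 1], [0, 1, 2, 3, 4]),
    ([0, 0, 0, 0, 1], [0, 2, 1, 3, 4]),
    ([0, 0, 0, 0, 1], [0, 2, 3, 1, 4]),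
    ([0, 0, 0, 0, 1], [0, 1, 2, 4, 3]),
    ([0, 0, 0, 0, 1], [1, 0, 4, 2, 3]),
    ([0, 0, 0, 1, 2], [0, 1, 2, 3, 4]),
    ([0, 0, 0, 1, 2], [1, 0, 3, 2, 4])]
  | 5 => [([0, 0, 0, 0, 0, 0], [0, 1, 2, 3, 4, 5]),
    ([0, 0, 0, 0, 0, 1], [0, 1, 2, 3, 4, 5]),
    ([0, 0, 0, 0, 0, 1], [0, 2, 1, 3, 4, 5]),
    ([0, 0, 0, 0, 0, 1], [0, 2, 3, 1, 4, 5]),
    ([0, 0, 0, 0, 0, 1], [0, 2, 3, 4, 1, 5]),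
    ([0, 0, 0, 0, 0, 1], [0, 1, 2, 3, 5, 4]),
    ([0, 0, 0, 0, 1, 1], [0, 1, 2, 3, 4, 5]),
    ([0, 0, 0, 0, 1, 2], [0, 1, 2, 3, 4, 5]),
    ([0, 0, 0, 0, 1, 2], [0, 1, 3, 2, 4, 5]),
    ([0, 0, 0, 0, 1, 4], [0, 1, 2, 3, 4, 5]),
    ([0, 0, 0, 0, 1, 2], [0, 1, 2, 4, 5, 3]),
    ([0, 0, 0, 0, 1, 4], [1, 0, 4, 2, 5, 3]),
    ([0, 0, 0, 0, 1, 4], [1, 4, 0, 5, 2, 3]),
    ([0, 0, 0, 1, 2, 3], [0, 1, 2, 3, 4, 5]),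
    ([0, 0, 0, 1, 2, 3], [0, 2, 1, 4, 3, 5])]
  | 6 => [([0, 0, 0, 0, 0, 0, 0], [0, 1, 2, 3, 4, 5, 6]),
    ([0, 0, 0, 0, 0, 0, 1], [0, 1, 2, 3, 4, 5, 6]),
    ([0, 0, 0, 0, 0, 0, 1], [0, 2, 1, 3, 4, 5, 6]),
    ([0, 0, 0, 0, 0, 0, 1], [0, 2, 3, 1, 4, 5, 6]),
    ([0, 0, 0, 0, 0, 0, 1], [0, 2, 3, 4, 1, 5, 6]),
    ([0, 0, 0, 0, 0, 0, 1], [0, 2, 3, 4, 5, 1, 6]),
    ([0, 0, 0, 0, 0, 0, 1], [0, 1, 2, 3, 4, 6, 5]),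
    ([0, 0, 0, 0, 0, 1, 1], [0, 1, 2, 3, 4, 5, 6]),
    ([0, 0, 0, 0, 0, 1, 2], [0, 1, 2, 3, 4, 5, 6]),
    ([0, 0, 0, 0, 0, 1, 2], [0, 1, 3, 2, 4, 5, 6]),
    ([0, 0, 0, 0, 0, 1, 2], [0, 1, 3, 4, 2, 5, 6]),
    ([0, 0, 0, 0, 0, 1, 5], [0, 1, 2, 3, 4, 5, 6]),
    ([0, 0, 0, 0, 0, 1, 1], [0, 1, 2, 3, 5, 6, 4]),
    ([0, 0, 0, 0, 0, 1, 1], [1, 0, 5, 6, 2, 3, 4]),
    ([0, 0, 0, 0, 1, 1, 2], [0, 1, 2, 3, 4, 5, 6]),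
    ([0, 0, 0, 0, 1, 1, 2], [0, 1, 3, 2, 4, 5, 6]),
    ([0, 0, 0, 0, 1, 1, 2], [1, 0, 4, 5, 2, 3, 6]),
    ([0, 0, 0, 0, 1, 1, 2], [1, 0, 4, 5, 3, 2, 6]),
    ([0, 0, 0, 0, 0, 1, 2], [0, 1, 2, 3, 5, 6, 4]),
    ([0, 0, 0, 0, 1, 1, 2], [0, 1, 2, 3, 4, 6, 5]),
    ([0, 0, 0, 0, 1, 1, 2], [0, 2, 1, 3, 6, 4, 5]),
    ([0, 0, 0, 0, 1, 2, 3], [0, 1, 2, 3, 4, 5, 6]),
    ([0, 0, 0, 0, 1, 2, 4], [0, 1, 2, 3, 4, 5, 6]),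
    ([0, 0, 0, 0, 1, 2, 4], [0, 2, 1, 3, 5, 4, 6]),
    ([0, 0, 0, 0, 0, 1, 5], [0, 1, 2, 3, 5, 6, 4]),
    ([0, 0, 0, 0, 1, 1, 2], [1, 0, 4, 5, 2, 6, 3]),
    ([0, 0, 0, 0, 1, 2, 4], [0, 1, 2, 3, 4, 6, 5]),
    ([0, 0, 0, 0, 1, 2, 4], [0, 1, 3, 2, 4, 6, 5]),
    ([0, 0, 0, 0, 1, 4, 4], [0, 1, 2, 3, 4, 5, 6]),
    ([0, 0, 0, 0, 1, 4, 5], [0, 1, 2, 3, 4, 5, 6]),
    ([0, 0, 0, 0, 1, 2, 4], [0, 1, 2, 4, 5, 6, 3]),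
    ([0, 0, 0, 0, 1, 2, 4], [1, 0, 4, 2, 6, 5, 3]),
    ([0, 0, 0, 0, 1, 4, 5], [1, 4, 0, 5, 2, 6, 3]),
    ([0, 0, 0, 0, 1, 4, 5], [4, 1, 5, 0, 6, 2, 3]),
    ([0, 0, 0, 1, 2, 3, 4], [0, 1, 2, 3, 4, 5, 6]),
    ([0, 0, 0, 1, 2, 3, 4], [1, 0, 3, 2, 5, 4, 6])]
  | 7 => [([0, 0, 0, 0, 0, 0, 0, 0], [0, 1, 2, 3, 4, 5, 6, 7]),
    ([0, 0, 0, 0, 0, 0, 0, 1], [0, 1, 2, 3, 4, 5, 6, 7]),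
    ([0, 0, 0, 0, 0, 0, 0, 1], [0, 2, 1, 3, 4, 5, 6, 7]),
    ([0, 0, 0, 0, 0, 0, 0, 1], [0, 2, 3, 1, 4, 5, 6, 7]),
    ([0, 0, 0, 0, 0, 0, 0, 1], [0, 2, 3, 4, 1, 5, 6, 7]),
    ([0, 0, 0, 0, 0, 0, 0, 1], [0, 2, 3, 4, 5, 1, 6, 7]),
    ([0, 0, 0, 0, 0, 0, 0, 1], [0, 2, 3, 4, 5, 6, 1, 7]),
    ([0, 0, 0, 0, 0, 0, 0, 1], [0, 1, 2, 3, 4, 5, 7, 6]),
    ([0, 0, 0, 0, 0, 0, 1, 1], [0, 1, 2, 3, 4, 5, 6, 7]),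
    ([0, 0, 0, 0, 0, 0, 1, 2], [0, 1, 2, 3, 4, 5, 6, 7]),
    ([0, 0, 0, 0, 0, 0, 1, 2], [0, 1, 3, 2, 4, 5, 6, 7]),
    ([0, 0, 0, 0, 0, 0, 1, 2], [0, 1, 3, 4, 2, 5, 6, 7]),
    ([0, 0, 0, 0, 0, 0, 1, 2], [0, 1, 3, 4, 5, 2, 6, 7]),
    ([0, 0, 0, 0, 0, 0, 1, 6], [0, 1, 2, 3, 4, 5, 6, 7]),
    ([0, 0, 0, 0, 0, 0, 1, 1], [0, 1, 2, 3, 4, 6, 7, 5]),
    ([0, 0, 0, 0, 0, 1, 1, 1], [0, 1, 2, 3, 4, 5, 6, 7]),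
    ([0, 0, 0, 0, 0, 1, 1, 2], [0, 1, 2, 3, 4, 5, 6, 7]),
    ([0, 0, 0, 0, 0, 1, 1, 2], [0, 1, 3, 2, 4, 5, 6, 7]),
    ([0, 0, 0, 0, 0, 1, 1, 2], [0, 1, 3, 4, 2, 5, 6, 7]),
    ([0, 0, 0, 0, 0, 1, 1, 5], [0, 1, 2, 3, 4, 5, 6, 7]),
    ([0, 0, 0, 0, 0, 1, 1, 5], [0, 1, 2, 3, 4, 6, 5, 7]),
    ([0, 0, 0, 0, 0, 0, 1, 2], [0, 1, 2, 3, 4, 6, 7, 5]),
    ([0, 0, 0, 0, 0, 1, 1, 2], [0, 1, 2, 3, 4, 5, 7, 6]),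
    ([0, 0, 0, 0, 0, 1, 1, 2], [0, 2, 1, 3, 4, 7, 5, 6]),
    ([0, 0, 0, 0, 0, 1, 2, 3], [0, 1, 2, 3, 4, 5, 6, 7]),
    ([0, 0, 0, 0, 0, 1, 2, 3], [0, 1, 2, 4, 3, 5, 6, 7]),
    ([0, 0, 0, 0, 0, 1, 2, 5], [0, 1, 2, 3, 4, 5, 6, 7]),
    ([0, 0, 0, 0, 0, 1, 2, 5], [0, 2, 1, 3, 4, 6, 5, 7]),
    ([0, 0, 0, 0, 0, 0, 1, 6], [0, 1, 2, 3, 4, 6, 7, 5]),
    ([0, 0, 0, 0, 0, 1, 1, 5], [0, 1, 2, 3, 4, 5, 7, 6]),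
    ([0, 0, 0, 0, 0, 1, 2, 5], [0, 1, 2, 3, 4, 5, 7, 6]),
    ([0, 0, 0, 0, 0, 1, 2, 5], [0, 1, 3, 2, 4, 5, 7, 6]),
    ([0, 0, 0, 0, 0, 1, 2, 5], [0, 1, 3, 4, 2, 5, 7, 6]),
    ([0, 0, 0, 0, 0, 1, 5, 5], [0, 1, 2, 3, 4, 5, 6, 7]),
    ([0, 0, 0, 0, 0, 1, 5, 6], [0, 1, 2, 3, 4, 5, 6, 7]),
    ([0, 0, 0, 0, 0, 1, 1, 2], [0, 1, 2, 3, 5, 6, 7, 4]),
    ([0, 0, 0, 0, 0, 1, 1, 5], [1, 0, 5, 6, 2, 3, 7, 4]),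
    ([0, 0, 0, 0, 1, 1, 2, 2], [0, 1, 2, 3, 4, 5, 6, 7]),
    ([0, 0, 0, 0, 1, 1, 2, 3], [0, 1, 2, 3, 4, 5, 6, 7]),
    ([0, 0, 0, 0, 1, 1, 2, 4], [0, 1, 2, 3, 4, 5, 6, 7]),
    ([0, 0, 0, 0, 1, 1, 2, 4], [0, 1, 2, 3, 5, 4, 6, 7]),
    ([0, 0, 0, 0, 1, 1, 2, 6], [0, 1, 2, 3, 4, 5, 6, 7]),
    ([0, 0, 0, 0, 0, 1, 2, 3], [0, 1, 2, 3, 5, 6, 7, 4]),
    ([0, 0, 0, 0, 1, 1, 2, 3], [0, 1, 2, 3, 4, 6, 7, 5]),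
    ([0, 0, 0, 0, 1, 1, 2, 3], [0, 2, 1, 3, 6, 4, 7, 5]),
    ([0, 0, 0, 0, 1, 1, 2, 3], [0, 2, 3, 1, 6, 7, 4, 5]),
    ([0, 0, 0, 0, 1, 2, 3, 4], [0, 1, 2, 3, 4, 5, 6, 7]),
    ([0, 0, 0, 0, 1, 2, 3, 4], [0, 2, 1, 3, 5, 4, 6, 7]),
    ([0, 0, 0, 0, 1, 2, 3, 4], [0, 2, 3, 1, 5, 6, 4, 7]),
    ([0, 0, 0, 0, 0, 1, 2, 5], [0, 1, 2, 3, 5, 6, 7, 4]),
    ([0, 0, 0, 0, 1, 1, 2, 4], [0, 1, 2, 3, 4, 6, 7, 5]),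
    ([0, 0, 0, 0, 1, 1, 2, 6], [0, 2, 1, 3, 6, 4, 7, 5]),
    ([0, 0, 0, 0, 1, 2, 3, 4], [0, 1, 2, 3, 4, 5, 7, 6]),
    ([0, 0, 0, 0, 1, 2, 4, 4], [0, 1, 2, 3, 4, 5, 6, 7]),
    ([0, 0, 0, 0, 1, 2, 4, 5], [0, 1, 2, 3, 4, 5, 6, 7]),
    ([0, 0, 0, 0, 1, 2, 4, 6], [0, 1, 2, 3, 4, 5, 6, 7]),
    ([0, 0, 0, 0, 0, 1, 5, 5], [0, 1, 2, 3, 5, 6, 7, 4]),
    ([0, 0, 0, 0, 1, 1, 2, 2], [1, 0, 4, 5, 2, 6, 7, 3]),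
    ([0, 0, 0, 0, 1, 2, 4, 4], [0, 1, 2, 3, 4, 6, 7, 5]),
    ([0, 0, 0, 0, 1, 2, 4, 4], [0, 1, 3, 2, 4, 6, 7, 5]),
    ([0, 0, 0, 0, 0, 1, 5, 5], [5, 1, 6, 7, 0, 2, 3, 4]),
    ([0, 0, 0, 0, 1, 2, 4, 4], [4, 1, 6, 7, 0, 2, 3, 5]),
    ([0, 0, 0, 0, 1, 2, 4, 4], [4, 1, 6, 7, 0, 3, 2, 5]),
    ([0, 0, 0, 0, 0, 1, 5, 6], [0, 1, 2, 3, 5, 6, 7, 4]),
    ([0, 0, 0, 0, 1, 1, 2, 6], [1, 0, 4, 5, 2, 6, 7, 3]),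
    ([0, 0, 0, 0, 1, 2, 4, 6], [0, 1, 2, 3, 4, 6, 7, 5]),
    ([0, 0, 0, 0, 1, 2, 4, 6], [0, 1, 3, 2, 4, 6, 7, 5]),
    ([0, 0, 0, 0, 1, 2, 4, 4], [4, 1, 6, 7, 0, 2, 5, 3]),
    ([0, 0, 0, 0, 1, 4, 5, 5], [0, 1, 2, 3, 4, 5, 6, 7]),
    ([0, 0, 0, 0, 1, 4, 5, 6], [0, 1, 2, 3, 4, 5, 6, 7]),
    ([0, 0, 0, 0, 1, 2, 4, 5], [0, 1, 2, 4, 5, 6, 7, 3]),
    ([0, 0, 0, 0, 1, 2, 4, 6], [1, 0, 4, 2, 6, 5, 7, 3]),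
    ([0, 0, 0, 0, 1, 2, 4, 6], [1, 4, 0, 6, 2, 7, 5, 3]),
    ([0, 0, 0, 0, 1, 4, 5, 6], [4, 1, 5, 0, 6, 2, 7, 3]),
    ([0, 0, 0, 0, 1, 4, 5, 6], [4, 5, 1, 6, 0, 7, 2, 3]),
    ([0, 0, 0, 1, 2, 3, 4, 5], [0, 1, 2, 3, 4, 5, 6, 7]),
    ([0, 0, 0, 1, 2, 3, 4, 5], [0, 2, 1, 4, 3, 6, 5, 7])]
  | 8 => [([0, 0, 0, 0, 0, 0, 0, 0, 0], [0, 1, 2, 3, 4, 5, 6, 7, 8]),
    ([0, 0, 0, 0, 0, 0, 0, 0, 1], [0, 1, 2, 3, 4, 5, 6, 7, 8]),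
    ([0, 0, 0, 0, 0, 0, 0, 0, 1], [0, 2, 1, 3, 4, 5, 6, 7, 8]),
    ([0, 0, 0, 0, 0, 0, 0, 0, 1], [0, 2, 3, 1, 4, 5, 6, 7, 8]),
    ([0, 0, 0, 0, 0, 0, 0, 0, 1], [0, 2, 3, 4, 1, 5, 6, 7, 8]),
    ([0, 0, 0, 0, 0, 0, 0, 0, 1], [0, 2, 3, 4, 5, 1, 6, 7, 8]),
    ([0, 0, 0, 0, 0, 0, 0, 0, 1], [0, 2, 3, 4, 5, 6, 1, 7, 8]),
    ([0, 0, 0, 0, 0, 0, 0, 0, 1], [0, 2, 3, 4, 5, 6, 7, 1, 8]),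
    ([0, 0, 0, 0, 0, 0, 0, 0, 1], [0, 1, 2, 3, 4, 5, 6, 8, 7]),
    ([0, 0, 0, 0, 0, 0, 0, 1, 1], [0, 1, 2, 3, 4, 5, 6, 7, 8]),
    ([0, 0, 0, 0, 0, 0, 0, 1, 2], [0, 1, 2, 3, 4, 5, 6, 7, 8]),
    ([0, 0, 0, 0, 0, 0, 0, 1, 2], [0, 1, 3, 2, 4, 5, 6, 7, 8]),
    ([0, 0, 0, 0, 0, 0, 0, 1, 2], [0, 1, 3, 4, 2, 5, 6, 7, 8]),
    ([0, 0, 0, 0, 0, 0, 0, 1, 2], [0, 1, 3, 4, 5, 2, 6, 7, 8]),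
    ([0, 0, 0, 0, 0, 0, 0, 1, 2], [0, 1, 3, 4, 5, 6, 2, 7, 8]),
    ([0, 0, 0, 0, 0, 0, 0, 1, 7], [0, 1, 2, 3, 4, 5, 6, 7, 8]),
    ([0, 0, 0, 0, 0, 0, 0, 1, 1], [0, 1, 2, 3, 4, 5, 7, 8, 6]),
    ([0, 0, 0, 0, 0, 0, 1, 1, 1], [0, 1, 2, 3, 4, 5, 6, 7, 8]),
    ([0, 0, 0, 0, 0, 0, 1, 1, 2], [0, 1, 2, 3, 4, 5, 6, 7, 8]),
    ([0, 0, 0, 0, 0, 0, 1, 1, 2], [0, 1, 3, 2, 4, 5, 6, 7, 8]),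
    ([0, 0, 0, 0, 0, 0, 1, 1, 2], [0, 1, 3, 4, 2, 5, 6, 7, 8]),
    ([0, 0, 0, 0, 0, 0, 1, 1, 2], [0, 1, 3, 4, 5, 2, 6, 7, 8]),
    ([0, 0, 0, 0, 0, 0, 1, 1, 6], [0, 1, 2, 3, 4, 5, 6, 7, 8]),
    ([0, 0, 0, 0, 0, 0, 1, 1, 6], [0, 1, 2, 3, 4, 5, 7, 6, 8]),
    ([0, 0, 0, 0, 0, 0, 0, 1, 2], [0, 1, 2, 3, 4, 5, 7, 8, 6]),
    ([0, 0, 0, 0, 0, 0, 1, 1, 2], [0, 1, 2, 3, 4, 5, 6, 8, 7]),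
    ([0, 0, 0, 0, 0, 0, 1, 1, 2], [0, 2, 1, 3, 4, 5, 8, 6, 7]),
    ([0, 0, 0, 0, 0, 0, 1, 2, 3], [0, 1, 2, 3, 4, 5, 6, 7, 8]),
    ([0, 0, 0, 0, 0, 0, 1, 2, 3], [0, 1, 2, 4, 3, 5, 6, 7, 8]),
    ([0, 0, 0, 0, 0, 0, 1, 2, 3], [0, 1, 2, 4, 5, 3, 6, 7, 8]),
    ([0, 0, 0, 0, 0, 0, 1, 2, 6], [0, 1, 2, 3, 4, 5, 6, 7, 8]),
    ([0, 0, 0, 0, 0, 0, 1, 2, 6], [0, 2, 1, 3, 4, 5, 7, 6, 8]),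
    ([0, 0, 0, 0, 0, 0, 0, 1, 7], [0, 1, 2, 3, 4, 5, 7, 8, 6]),
    ([0, 0, 0, 0, 0, 0, 1, 1, 6], [0, 1, 2, 3, 4, 5, 6, 8, 7]),
    ([0, 0, 0, 0, 0, 0, 1, 2, 6], [0, 1, 2, 3, 4, 5, 6, 8, 7]),
    ([0, 0, 0, 0, 0, 0, 1, 2, 6], [0, 1, 3, 2, 4, 5, 6, 8, 7]),
    ([0, 0, 0, 0, 0, 0, 1, 2, 6], [0, 1, 3, 4, 2, 5, 6, 8, 7]),
    ([0, 0, 0, 0, 0, 0, 1, 2, 6], [0, 1, 3, 4, 5, 2, 6, 8, 7]),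
    ([0, 0, 0, 0, 0, 0, 1, 6, 6], [0, 1, 2, 3, 4, 5, 6, 7, 8]),
    ([0, 0, 0, 0, 0, 0, 1, 6, 7], [0, 1, 2, 3, 4, 5, 6, 7, 8]),
    ([0, 0, 0, 0, 0, 0, 1, 1, 1], [0, 1, 2, 3, 4, 6, 7, 8, 5]),
    ([0, 0, 0, 0, 0, 0, 1, 1, 1], [1, 0, 6, 7, 8, 2, 3, 4, 5]),
    ([0, 0, 0, 0, 0, 1, 1, 1, 2], [0, 1, 2, 3, 4, 5, 6, 7, 8]),
    ([0, 0, 0, 0, 0, 1, 1, 1, 2], [0, 1, 3, 2, 4, 5, 6, 7, 8]),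
    ([0, 0, 0, 0, 0, 1, 1, 1, 2], [0, 1, 3, 4, 2, 5, 6, 7, 8]),
    ([0, 0, 0, 0, 0, 1, 1, 1, 2], [1, 0, 5, 6, 7, 2, 3, 4, 8]),
    ([0, 0, 0, 0, 0, 1, 1, 1, 2], [1, 0, 5, 6, 7, 3, 2, 4, 8]),
    ([0, 0, 0, 0, 0, 1, 1, 1, 2], [1, 0, 5, 6, 7, 3, 4, 2, 8]),
    ([0, 0, 0, 0, 0, 0, 1, 1, 2], [0, 1, 2, 3, 4, 6, 7, 8, 5]),
    ([0, 0, 0, 0, 0, 1, 1, 1, 2], [0, 1, 2, 3, 4, 5, 6, 8, 7]),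
    ([0, 0, 0, 0, 0, 1, 1, 2, 2], [0, 1, 2, 3, 4, 5, 6, 7, 8]),
    ([0, 0, 0, 0, 0, 1, 1, 2, 3], [0, 1, 2, 3, 4, 5, 6, 7, 8]),
    ([0, 0, 0, 0, 0, 1, 1, 2, 3], [0, 1, 2, 4, 3, 5, 6, 7, 8]),
    ([0, 0, 0, 0, 0, 1, 1, 2, 5], [0, 1, 2, 3, 4, 5, 6, 7, 8]),
    ([0, 0, 0, 0, 0, 1, 1, 2, 5], [0, 1, 2, 3, 4, 6, 5, 7, 8]),
    ([0, 0, 0, 0, 0, 1, 1, 2, 7], [0, 1, 2, 3, 4, 5, 6, 7, 8]),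
    ([0, 0, 0, 0, 0, 0, 1, 1, 6], [0, 1, 2, 3, 4, 6, 7, 8, 5]),
    ([0, 0, 0, 0, 0, 1, 1, 1, 2], [1, 0, 5, 6, 7, 2, 3, 8, 4]),
    ([0, 0, 0, 0, 0, 1, 1, 2, 5], [0, 1, 2, 3, 4, 5, 6, 8, 7]),
    ([0, 0, 0, 0, 0, 1, 1, 2, 5], [0, 1, 3, 2, 4, 5, 6, 8, 7]),
    ([0, 0, 0, 0, 0, 1, 1, 2, 5], [0, 1, 3, 4, 2, 5, 6, 8, 7]),
    ([0, 0, 0, 0, 0, 1, 1, 5, 5], [0, 1, 2, 3, 4, 5, 6, 7, 8]),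
    ([0, 0, 0, 0, 0, 1, 1, 5, 6], [0, 1, 2, 3, 4, 5, 6, 7, 8]),
    ([0, 0, 0, 0, 0, 1, 1, 5, 7], [0, 1, 2, 3, 4, 5, 6, 7, 8]),
    ([0, 0, 0, 0, 0, 0, 1, 2, 3], [0, 1, 2, 3, 4, 6, 7, 8, 5]),
    ([0, 0, 0, 0, 0, 1, 1, 2, 3], [0, 1, 2, 3, 4, 5, 7, 8, 6]),
    ([0, 0, 0, 0, 0, 1, 1, 2, 3], [0, 2, 1, 3, 4, 7, 5, 8, 6]),
    ([0, 0, 0, 0, 0, 1, 1, 2, 3], [0, 2, 3, 1, 4, 7, 8, 5, 6]),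
    ([0, 0, 0, 0, 0, 1, 2, 3, 4], [0, 1, 2, 3, 4, 5, 6, 7, 8]),
    ([0, 0, 0, 0, 0, 1, 2, 3, 5], [0, 1, 2, 3, 4, 5, 6, 7, 8]),
    ([0, 0, 0, 0, 0, 1, 2, 3, 5], [0, 2, 1, 3, 4, 6, 5, 7, 8]),
    ([0, 0, 0, 0, 0, 1, 2, 3, 5], [0, 2, 3, 1, 4, 6, 7, 5, 8]),
    ([0, 0, 0, 0, 0, 0, 1, 2, 6], [0, 1, 2, 3, 4, 6, 7, 8, 5]),
    ([0, 0, 0, 0, 0, 1, 1, 2, 5], [0, 1, 2, 3, 4, 5, 7, 8, 6]),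
    ([0, 0, 0, 0, 0, 1, 1, 2, 7], [0, 2, 1, 3, 4, 7, 5, 8, 6]),
    ([0, 0, 0, 0, 0, 1, 2, 3, 5], [0, 1, 2, 3, 4, 5, 6, 8, 7]),
    ([0, 0, 0, 0, 0, 1, 2, 3, 5], [0, 1, 2, 4, 3, 5, 6, 8, 7]),
    ([0, 0, 0, 0, 0, 1, 2, 5, 5], [0, 1, 2, 3, 4, 5, 6, 7, 8]),
    ([0, 0, 0, 0, 0, 1, 2, 5, 6], [0, 1, 2, 3, 4, 5, 6, 7, 8]),
    ([0, 0, 0, 0, 0, 1, 2, 5, 7], [0, 1, 2, 3, 4, 5, 6, 7, 8]),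
    ([0, 0, 0, 0, 0, 0, 1, 6, 6], [0, 1, 2, 3, 4, 6, 7, 8, 5]),
    ([0, 0, 0, 0, 0, 1, 1, 5, 5], [0, 1, 2, 3, 4, 5, 7, 8, 6]),
    ([0, 0, 0, 0, 0, 1, 2, 5, 5], [0, 1, 2, 3, 4, 5, 7, 8, 6]),
    ([0, 0, 0, 0, 0, 1, 2, 5, 5], [0, 1, 3, 2, 4, 5, 7, 8, 6]),
    ([0, 0, 0, 0, 0, 1, 2, 5, 5], [0, 1, 3, 4, 2, 5, 7, 8, 6]),
    ([0, 0, 0, 0, 0, 1, 5, 5, 5], [0, 1, 2, 3, 4, 5, 6, 7, 8]),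
    ([0, 0, 0, 0, 0, 1, 5, 5, 6], [0, 1, 2, 3, 4, 5, 6, 7, 8]),
    ([0, 0, 0, 0, 0, 1, 5, 5, 6], [0, 1, 2, 3, 4, 5, 7, 6, 8]),
    ([0, 0, 0, 0, 0, 0, 1, 6, 7], [0, 1, 2, 3, 4, 6, 7, 8, 5]),
    ([0, 0, 0, 0, 0, 1, 1, 5, 7], [0, 1, 2, 3, 4, 5, 7, 8, 6]),
    ([0, 0, 0, 0, 0, 1, 2, 5, 7], [0, 1, 2, 3, 4, 5, 7, 8, 6]),
    ([0, 0, 0, 0, 0, 1, 2, 5, 7], [0, 1, 3, 2, 4, 5, 7, 8, 6]),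
    ([0, 0, 0, 0, 0, 1, 2, 5, 7], [0, 1, 3, 4, 2, 5, 7, 8, 6]),
    ([0, 0, 0, 0, 0, 1, 5, 5, 6], [0, 1, 2, 3, 4, 5, 6, 8, 7]),
    ([0, 0, 0, 0, 0, 1, 5, 6, 6], [0, 1, 2, 3, 4, 5, 6, 7, 8]),
    ([0, 0, 0, 0, 0, 1, 5, 6, 7], [0, 1, 2, 3, 4, 5, 6, 7, 8]),
    ([0, 0, 0, 0, 0, 1, 1, 2, 2], [0, 1, 2, 3, 5, 6, 7, 8, 4]),
    ([0, 0, 0, 0, 0, 1, 1, 5, 5], [1, 0, 5, 6, 2, 3, 7, 8, 4]),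
    ([0, 0, 0, 0, 0, 1, 1, 5, 5], [1, 5, 0, 6, 7, 8, 2, 3, 4]),
    ([0, 0, 0, 0, 1, 1, 2, 2, 3], [0, 1, 2, 3, 4, 5, 6, 7, 8]),
    ([0, 0, 0, 0, 1, 1, 2, 2, 4], [0, 1, 2, 3, 4, 5, 6, 7, 8]),
    ([0, 0, 0, 0, 1, 1, 2, 2, 4], [0, 1, 2, 3, 5, 4, 6, 7, 8]),
    ([0, 0, 0, 0, 1, 1, 2, 2, 4], [0, 2, 1, 3, 6, 7, 4, 5, 8]),
    ([0, 0, 0, 0, 1, 1, 2, 2, 4], [0, 2, 1, 3, 6, 7, 5, 4, 8]),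
    ([0, 0, 0, 0, 0, 1, 1, 2, 3], [0, 1, 2, 3, 5, 6, 7, 8, 4]),
    ([0, 0, 0, 0, 0, 1, 1, 5, 6], [1, 0, 5, 6, 2, 3, 7, 8, 4]),
    ([0, 0, 0, 0, 1, 1, 2, 2, 3], [0, 1, 2, 3, 4, 5, 6, 8, 7]),
    ([0, 0, 0, 0, 1, 1, 2, 2, 3], [0, 1, 3, 2, 4, 5, 8, 6, 7]),
    ([0, 0, 0, 0, 1, 1, 2, 3, 4], [0, 1, 2, 3, 4, 5, 6, 7, 8]),
    ([0, 0, 0, 0, 1, 1, 2, 3, 4], [0, 1, 2, 3, 5, 4, 6, 7, 8]),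
    ([0, 0, 0, 0, 1, 1, 2, 3, 6], [0, 1, 2, 3, 4, 5, 6, 7, 8]),
    ([0, 0, 0, 0, 1, 1, 2, 3, 6], [0, 1, 3, 2, 4, 5, 7, 6, 8]),
    ([0, 0, 0, 0, 0, 1, 1, 2, 5], [0, 1, 2, 3, 5, 6, 7, 8, 4]),
    ([0, 0, 0, 0, 0, 1, 1, 2, 5], [1, 0, 5, 6, 2, 3, 8, 7, 4]),
    ([0, 0, 0, 0, 1, 1, 2, 2, 4], [0, 1, 2, 3, 4, 5, 6, 8, 7]),
    ([0, 0, 0, 0, 1, 1, 2, 3, 4], [0, 1, 2, 3, 4, 5, 6, 8, 7]),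
    ([0, 0, 0, 0, 1, 1, 2, 2, 4], [1, 0, 4, 5, 2, 3, 8, 6, 7]),
    ([0, 0, 0, 0, 1, 1, 2, 3, 4], [1, 0, 4, 5, 2, 3, 8, 6, 7]),
    ([0, 0, 0, 0, 1, 1, 2, 4, 6], [0, 1, 2, 3, 4, 5, 6, 7, 8]),
    ([0, 0, 0, 0, 1, 1, 2, 4, 6], [1, 0, 4, 5, 2, 3, 7, 6, 8]),
    ([0, 0, 0, 0, 0, 1, 1, 2, 7], [0, 1, 2, 3, 5, 6, 7, 8, 4]),
    ([0, 0, 0, 0, 0, 1, 1, 5, 7], [1, 0, 5, 6, 2, 3, 7, 8, 4]),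
    ([0, 0, 0, 0, 1, 1, 2, 2, 4], [0, 2, 1, 3, 6, 7, 4, 8, 5]),
    ([0, 0, 0, 0, 1, 1, 2, 3, 6], [0, 1, 2, 3, 4, 5, 6, 8, 7]),
    ([0, 0, 0, 0, 1, 1, 2, 4, 6], [0, 1, 2, 3, 4, 5, 6, 8, 7]),
    ([0, 0, 0, 0, 1, 1, 2, 4, 6], [0, 1, 2, 3, 5, 4, 6, 8, 7]),
    ([0, 0, 0, 0, 1, 1, 2, 6, 6], [0, 1, 2, 3, 4, 5, 6, 7, 8]),
    ([0, 0, 0, 0, 1, 1, 2, 6, 7], [0, 1, 2, 3, 4, 5, 6, 7, 8]),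
    ([0, 0, 0, 0, 0, 1, 2, 3, 5], [0, 1, 2, 3, 5, 6, 7, 8, 4]),
    ([0, 0, 0, 0, 1, 1, 2, 3, 4], [0, 1, 2, 3, 4, 6, 7, 8, 5]),
    ([0, 0, 0, 0, 1, 1, 2, 3, 6], [0, 2, 1, 3, 6, 4, 7, 8, 5]),
    ([0, 0, 0, 0, 1, 1, 2, 3, 6], [0, 2, 3, 1, 6, 7, 4, 8, 5]),
    ([0, 0, 0, 0, 1, 2, 3, 4, 4], [0, 1, 2, 3, 4, 5, 6, 7, 8]),
    ([0, 0, 0, 0, 1, 2, 3, 4, 5], [0, 1, 2, 3, 4, 5, 6, 7, 8]),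
    ([0, 0, 0, 0, 1, 2, 3, 4, 5], [0, 1, 3, 2, 4, 6, 5, 7, 8]),
    ([0, 0, 0, 0, 1, 2, 3, 4, 7], [0, 1, 2, 3, 4, 5, 6, 7, 8]),
    ([0, 0, 0, 0, 0, 1, 2, 5, 5], [0, 1, 2, 3, 5, 6, 7, 8, 4]),
    ([0, 0, 0, 0, 1, 1, 2, 2, 4], [1, 0, 4, 5, 2, 8, 6, 7, 3]),
    ([0, 0, 0, 0, 1, 1, 2, 6, 6], [0, 2, 1, 3, 6, 4, 7, 8, 5]),
    ([0, 0, 0, 0, 1, 2, 3, 4, 4], [0, 1, 2, 3, 4, 5, 7, 8, 6]),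
    ([0, 0, 0, 0, 0, 1, 5, 5, 6], [5, 1, 6, 7, 0, 8, 2, 3, 4]),
    ([0, 0, 0, 0, 1, 2, 4, 4, 5], [0, 1, 2, 3, 4, 5, 6, 7, 8]),
    ([0, 0, 0, 0, 1, 2, 4, 4, 6], [0, 1, 2, 3, 4, 5, 6, 7, 8]),
    ([0, 0, 0, 0, 1, 2, 4, 4, 6], [0, 1, 2, 3, 4, 5, 7, 6, 8]),
    ([0, 0, 0, 0, 0, 1, 2, 5, 6], [0, 1, 2, 3, 5, 6, 7, 8, 4]),
    ([0, 0, 0, 0, 1, 1, 2, 4, 6], [0, 1, 2, 3, 4, 6, 7, 8, 5]),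
    ([0, 0, 0, 0, 1, 1, 2, 4, 6], [0, 2, 1, 3, 6, 4, 8, 7, 5]),
    ([0, 0, 0, 0, 1, 2, 3, 4, 5], [0, 1, 2, 3, 4, 5, 7, 8, 6]),
    ([0, 0, 0, 0, 1, 2, 4, 4, 5], [0, 1, 2, 3, 4, 5, 6, 8, 7]),
    ([0, 0, 0, 0, 1, 2, 4, 4, 5], [0, 2, 1, 3, 5, 4, 8, 6, 7]),
    ([0, 0, 0, 0, 1, 2, 4, 5, 6], [0, 1, 2, 3, 4, 5, 6, 7, 8]),
    ([0, 0, 0, 0, 1, 2, 4, 5, 6], [0, 2, 1, 3, 5, 4, 7, 6, 8]),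
    ([0, 0, 0, 0, 0, 1, 2, 5, 7], [0, 1, 2, 3, 5, 6, 7, 8, 4]),
    ([0, 0, 0, 0, 1, 1, 2, 4, 6], [1, 0, 4, 5, 2, 7, 6, 8, 3]),
    ([0, 0, 0, 0, 1, 1, 2, 6, 7], [0, 2, 1, 3, 6, 4, 7, 8, 5]),
    ([0, 0, 0, 0, 1, 2, 3, 4, 7], [0, 1, 2, 3, 4, 5, 7, 8, 6]),
    ([0, 0, 0, 0, 1, 2, 4, 4, 6], [0, 1, 2, 3, 4, 5, 6, 8, 7]),
    ([0, 0, 0, 0, 1, 2, 4, 5, 6], [0, 1, 2, 3, 4, 5, 6, 8, 7]),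
    ([0, 0, 0, 0, 1, 2, 4, 6, 6], [0, 1, 2, 3, 4, 5, 6, 7, 8]),
    ([0, 0, 0, 0, 1, 2, 4, 6, 7], [0, 1, 2, 3, 4, 5, 6, 7, 8]),
    ([0, 0, 0, 0, 0, 1, 5, 6, 6], [0, 1, 2, 3, 5, 6, 7, 8, 4]),
    ([0, 0, 0, 0, 1, 1, 2, 6, 6], [1, 0, 4, 5, 2, 6, 7, 8, 3]),
    ([0, 0, 0, 0, 1, 2, 4, 6, 6], [0, 1, 2, 3, 4, 6, 7, 8, 5]),
    ([0, 0, 0, 0, 1, 2, 4, 6, 6], [0, 1, 3, 2, 4, 6, 7, 8, 5]),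
    ([0, 0, 0, 0, 1, 1, 2, 6, 6], [6, 2, 7, 8, 0, 1, 4, 5, 3]),
    ([0, 0, 0, 0, 0, 1, 5, 6, 6], [6, 5, 7, 8, 1, 0, 2, 3, 4]),
    ([0, 0, 0, 0, 1, 2, 4, 6, 6], [6, 4, 7, 8, 1, 0, 2, 3, 5]),
    ([0, 0, 0, 0, 1, 2, 4, 6, 6], [6, 4, 7, 8, 1, 0, 3, 2, 5]),
    ([0, 0, 0, 0, 0, 1, 5, 6, 7], [0, 1, 2, 3, 5, 6, 7, 8, 4]),
    ([0, 0, 0, 0, 1, 1, 2, 6, 7], [1, 0, 4, 5, 2, 6, 7, 8, 3]),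
    ([0, 0, 0, 0, 1, 2, 4, 6, 7], [0, 1, 2, 3, 4, 6, 7, 8, 5]),
    ([0, 0, 0, 0, 1, 2, 4, 6, 7], [0, 1, 3, 2, 4, 6, 7, 8, 5]),
    ([0, 0, 0, 0, 1, 2, 4, 4, 5], [4, 1, 6, 7, 0, 2, 5, 8, 3]),
    ([0, 0, 0, 0, 1, 2, 4, 6, 6], [6, 4, 7, 8, 1, 0, 2, 5, 3]),
    ([0, 0, 0, 0, 1, 4, 5, 6, 6], [0, 1, 2, 3, 4, 5, 6, 7, 8]),
    ([0, 0, 0, 0, 1, 4, 5, 6, 7], [0, 1, 2, 3, 4, 5, 6, 7, 8]),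
    ([0, 0, 0, 0, 1, 2, 4, 5, 6], [0, 1, 2, 4, 5, 6, 7, 8, 3]),
    ([0, 0, 0, 0, 1, 2, 4, 5, 6], [1, 0, 4, 2, 6, 5, 8, 7, 3]),
    ([0, 0, 0, 0, 1, 2, 4, 6, 7], [1, 4, 0, 6, 2, 7, 5, 8, 3]),
    ([0, 0, 0, 0, 1, 2, 4, 6, 7], [4, 1, 6, 0, 7, 2, 8, 5, 3]),
    ([0, 0, 0, 0, 1, 4, 5, 6, 7], [4, 5, 1, 6, 0, 7, 2, 8, 3]),
    ([0, 0, 0, 0, 1, 4, 5, 6, 7], [5, 4, 6, 1, 7, 0, 8, 2, 3]),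
    ([0, 0, 0, 1, 2, 3, 4, 5, 6], [0, 1, 2, 3, 4, 5, 6, 7, 8]),
    ([0, 0, 0, 1, 2, 3, 4, 5, 6], [1, 0, 3, 2, 5, 4, 7, 6, 8])]
  | _ => []


/-- the tree given by a list of parents -/
def TG (n : ℕ) (p : List ℕ) : SimpleGraph (Fin n) :=
  SimpleGraph.fromRel fun x y => x.val < y.val ∧ p.getD y.val 0 = x.val

lemma TG_adj {n : ℕ} {p : List ℕ} {x y : Fin n} : (TG n p).Adj x y ↔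
    (x.val < y.val ∧ p.getD y.val 0 = x.val) ∨ (y.val < x.val ∧ p.getD x.val 0 = y.val) := by
  simp only [TG, SimpleGraph.fromRel_adj, Ne, Fin.ext_iff]
  omega

/-- Boolean adjacency -/
def ab (p : List ℕ) (x y : ℕ) : Bool :=
  (decide (x < y) && (p.getD y 0 == x)) || (decide (y < x) && (p.getD x 0 == y))

lemma ab_iff {n : ℕ} {p : List ℕ} {x y : Fin n} : ab p x y = true ↔ (TG n p).Adj x y := by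
  rw [TG_adj]
  simp [ab]

/-- check of an isomorphism -/
def chkIso (n : ℕ) (q p' σ : List ℕ) : Bool :=
  decide (∀ x < n, σ.getD x 0 < n) && decide (∀ x < n, ∀ y < x, σ.getD x 0 ≠ σ.getD y 0) &&
    decide (∀ x < n, ∀ y < n, ab q x y = ab p' (σ.getD x 0) (σ.getD y 0))

lemma chkIso_sound {n : ℕ} {q p' σ : List ℕ} (h : chkIso n q p' σ = true) :
    ∃ e : Fin n ≃ Fin n, TG n q = (TG n p').comap e := by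
  unfold chkIso at h
  simp only [Bool.and_eq_true, decide_eq_true_eq] at h
  obtain ⟨⟨h1, h2⟩, h3⟩ := h
  let f : Fin n → Fin n := fun x => ⟨σ.getD x 0, h1 x x.2⟩
  have hf : Function.Injective f := by
    intro x y hxy
    have hxy' : σ.getD x 0 = σ.getD y 0 := by simpa [f] using hxy
    rcases lt_trichotomy x.val y.val with h | h | h
    · exact absurd hxy'.symm (h2 y y.2 x h)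
    · exact Fin.ext h
    · exact absurd hxy' (h2 x x.2 y h)
  let e : Fin n ≃ Fin n := Equiv.ofBijective f ⟨hf, Finite.injective_iff_surjective.1 hf⟩
  refine ⟨e, ?_⟩
  ext x y
  rw [← ab_iff, SimpleGraph.comap_adj, ← ab_iff, h3 x x.2 y y.2]
  rfl

def exts (n : ℕ) : List (List ℕ) := (LL n).flatMap fun p => (List.range n).map fun j => p ++ [j]

def allChk (n : ℕ) (L : List (List ℕ)) : List (List ℕ) → List (List ℕ × List ℕ) → Bool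
  | [], _ => true
  | _ :: _, [] => false
  | q :: qs, c :: cs => chkIso n q c.1 c.2 && L.contains c.1 && allChk n L qs cs

lemma allChk_sound {n : ℕ} {L : List (List ℕ)} : ∀ (qs : List (List ℕ))
    (cs : List (List ℕ × List ℕ)), allChk n L qs cs = true → ∀ q ∈ qs,
      ∃ p' ∈ L, ∃ e : Fin n ≃ Fin n, TG n q = (TG n p').comap e
  | [], _, _ => by simp
  | _ :: _, [], h => by simp [allChk] at h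
  | q :: qs, c :: cs, h => by
    unfold allChk at h
    simp only [Bool.and_eq_true] at h
    intro q' hq'
    rw [List.mem_cons] at hq'
    rcases hq' with rfl | hq'
    · exact ⟨c.1, by simpa using h.1.2, chkIso_sound h.1.1⟩
    · exact allChk_sound qs cs h.2 q' hq'

lemma step_check : ∀ n < 9, 1 ≤ n → allChk (n + 1) (LL (n + 1)) (exts n) (certs n) = true := by
  decide +kernel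

lemma len_check : ∀ n < 10, ∀ p ∈ LL n, p.length = n ∧ ∀ y < n, 1 ≤ y → p.getD y 0 < y := by
  decide +kernel

/-- every tree with at most 9 vertices is in the list -/
theorem enum (n : ℕ) (hn1 : 1 ≤ n) (hn : n < 10) : ∀ (V : Type) [Fintype V] (G : SimpleGraph V),
    Fintype.card V = n → G.IsTree → ∃ p ∈ LL n, ∃ e : V ≃ Fin n, G = (TG n p).comap e := by
  induction n, hn1 using Nat.le_induction with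
  | base =>
    intro V _ G hc _
    refine ⟨[0], by simp [LL], Fintype.equivFinOfCardEq hc, ?_⟩
    have hs : Subsingleton V := Fintype.card_le_one_iff_subsingleton.1 hc.le
    ext x y
    rw [Subsingleton.elim x y]
    simp
  | succ n hn1 ih =>
    intro V _ G hc hT
    classical
    have : Nontrivial V := Fintype.one_lt_card_iff_nontrivial.1 (by omega)
    obtain ⟨l, hl⟩ := hT.exists_vert_degree_one_of_nontrivial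
    obtain ⟨q, hlq, hq⟩ := degree_eq_one_iff_existsUnique_adj.1 hl
    have hT' : (G.induce ({l}ᶜ : Set V)).IsTree :=
      ⟨hT.connected.induce_compl_singleton_of_degree_eq_one hl, hT.isAcyclic.induce _⟩
    have hc' : Fintype.card (({l}ᶜ : Set V) : Type) = n := by
      rw [Fintype.card_compl_set, hc, Fintype.card_ofFinset]
      simp
    obtain ⟨p, hp, e', he'⟩ := ih (by omega) (({l}ᶜ : Set V) : Type) (G.induce ({l}ᶜ : Set V)) hc' hT'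
    have hlen := (len_check n (by omega) p hp).1
    have hql : q ∈ ({l}ᶜ : Set V) := by
      simp only [Set.mem_compl_iff, Set.mem_singleton_iff]
      exact hlq.ne'
    let j : Fin n := e' ⟨q, hql⟩
    -- the extended equivalence
    let f : V → Fin (n + 1) := fun x => if hx : x ∈ ({l}ᶜ : Set V) then (e' ⟨x, hx⟩).castSucc
      else Fin.last n
    have fl : f l = Fin.last n := by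
      simp [f]
    have fx : ∀ x (hx : x ∈ ({l}ᶜ : Set V)), f x = (e' ⟨x, hx⟩).castSucc := by
      intro x hx
      simp only [f]
      rw [dif_pos hx]
    have hne : ∀ x, x ≠ l → x ∈ ({l}ᶜ : Set V) := fun x hx => hx
    have hf : Function.Injective f := by
      intro x y hxy
      by_cases hx : x = l
      · by_cases hy : y = l
        · rw [hx, hy]
        · rw [hx, fl, fx y (hne y hy)] at hxy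
          exact absurd hxy.symm (Fin.castSucc_lt_last _).ne
      · by_cases hy : y = l
        · rw [hy, fl, fx x (hne x hx)] at hxy
          exact absurd hxy (Fin.castSucc_lt_last _).ne
        · rw [fx x (hne x hx), fx y (hne y hy)] at hxy
          have := e'.injective (Fin.castSucc_injective _ hxy)
          exact congrArg Subtype.val this
    let e : V ≃ Fin (n + 1) := Equiv.ofBijective f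
      ((Fintype.bijective_iff_injective_and_card f).2 ⟨hf, by rw [hc, Fintype.card_fin]⟩)
    have hG : G = (TG (n + 1) (p ++ [j.val])).comap e := by
      ext x y
      rw [SimpleGraph.comap_adj, TG_adj]
      change G.Adj x y ↔ ((f x).val < (f y).val ∧ (p ++ [j.val]).getD (f y).val 0 = (f x).val) ∨
        ((f y).val < (f x).val ∧ (p ++ [j.val]).getD (f x).val 0 = (f y).val)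
      have hlast : (p ++ [j.val]).getD n 0 = j.val := by
        rw [List.getD_append_right _ _ _ _ (by omega), hlen]
        simp
      have hfirst : ∀ i < n, (p ++ [j.val]).getD i 0 = p.getD i 0 := by
        intro i hi
        exact List.getD_append _ _ _ _ (by omega)
      by_cases hx : x = l
      · by_cases hy : y = l
        · rw [hx, hy]
          simp
        · rw [hx, fl, fx y (hne y hy)]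
          have h1 : ((e' ⟨y, hne y hy⟩).castSucc : Fin (n + 1)).val = (e' ⟨y, hne y hy⟩).val := rfl
          rw [h1, Fin.val_last, hlast]
          have h2 := (e' ⟨y, hne y hy⟩).2
          constructor
          · intro h
            right
            refine ⟨h2, ?_⟩
            have : y = q := hq y h
            subst this
            rfl
          · rintro (h | h)
            · omega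
            · have h3 : j = e' ⟨y, hne y hy⟩ := Fin.ext h.2
              have h4 := e'.injective h3
              have h5 : q = y := congrArg Subtype.val h4
              rw [← h5]
              exact hlq
      · by_cases hy : y = l
        · rw [hy, fl, fx x (hne x hx)]
          have h1 : ((e' ⟨x, hne x hx⟩).castSucc : Fin (n + 1)).val = (e' ⟨x, hne x hx⟩).val := rfl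
          rw [h1, Fin.val_last, hlast]
          have h2 := (e' ⟨x, hne x hx⟩).2
          constructor
          · intro h
            left
            refine ⟨h2, ?_⟩
            have : x = q := hq x h.symm
            subst this
            rfl
          · rintro (h | h)
            · have h3 : j = e' ⟨x, hne x hx⟩ := Fin.ext h.2
              have h4 := e'.injective h3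
              have h5 : q = x := congrArg Subtype.val h4
              rw [← h5]
              exact hlq.symm
            · omega
        · rw [fx x (hne x hx), fx y (hne y hy)]
          have h1 : ((e' ⟨x, hne x hx⟩).castSucc : Fin (n + 1)).val = (e' ⟨x, hne x hx⟩).val := rfl
          have h1' : ((e' ⟨y, hne y hy⟩).castSucc : Fin (n + 1)).val = (e' ⟨y, hne y hy⟩).val := rfl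
          rw [h1, h1', hfirst _ (e' ⟨x, hne x hx⟩).2, hfirst _ (e' ⟨y, hne y hy⟩).2, ← TG_adj]
          have h6 : (G.induce ({l}ᶜ : Set V)).Adj ⟨x, hne x hx⟩ ⟨y, hne y hy⟩ ↔
              (TG n p).Adj (e' ⟨x, hne x hx⟩) (e' ⟨y, hne y hy⟩) := by
            rw [he', SimpleGraph.comap_adj]
          rw [← h6]
          simp
    have hmem : p ++ [j.val] ∈ exts n := by
      unfold exts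
      rw [List.mem_flatMap]
      exact ⟨p, hp, List.mem_map.2 ⟨j.val, List.mem_range.2 j.2, rfl⟩⟩
    obtain ⟨p', hp', e2, he2⟩ := allChk_sound _ _ (step_check n (by omega) hn1) _ hmem
    refine ⟨p', hp', e.trans e2, ?_⟩
    rw [hG, he2]
    rfl

end Q117.AV
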