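import Pool.Agent.Q117.AV.General

/-! 1-nearly independent sets in trees: the general bound for trees. -/

set_option autoImplicit false

namespace Q117.AV

open SimpleGraph Finset Q117.NE

section
variable {V : Type*} [Fintype V] (G : SimpleGraph V)

open Classical in
/-- neighbours -/
noncomputable def nb (v : V) : Finset V := univ.filter fun u => G.Adj v u

lemma mem_nb {v x : V} : x ∈ nb G v ↔ G.Adj v x := by simp [nb]

lemma card_RR (hT : G.IsTree) {u v : V} (h : G.Adj u v) :
    (RR G u v).card + ((nb G u).card + (nb G v).card) = Fintype.card V := by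
  classical
  have hdisj : Disjoint (nb G u) (nb G v) := by
    rw [Finset.disjoint_left]
    intro x hx hy
    rw [mem_nb] at hx hy
    have := hT.isAcyclic.cliqueFree (n := 3) le_rfl {u, v, x}
    apply this
    rw [is3Clique_triple_iff]
    exact ⟨h, hx, hy⟩
  rw [← card_union_of_disjoint hdisj]
  have : RR G u v = (nb G u ∪ nb G v)ᶜ := by
    ext x
    unfold RR
    simp [mem_nb]
  rw [this, card_compl]
  have := card_le_univ (nb G u ∪ nb G v)
  omega

/-- the structure of the extremal tree -/
def IsR (u v w : V) : Prop := u ≠ v ∧ u ≠ w ∧ v ≠ w ∧ ∀ x y, G.Adj x y ↔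
  (x = u ∧ y = v) ∨ (x = v ∧ y = u) ∨ (x = w ∧ y ≠ w ∧ y ≠ u) ∨ (y = w ∧ x ≠ w ∧ x ≠ u)

lemma exists_nbr (hT : G.IsTree) (hn : 2 ≤ Fintype.card V) (x : V) : ∃ y, G.Adj x y := by
  have : Nontrivial V := Fintype.one_lt_card_iff_nontrivial.1 (by omega)
  obtain ⟨z, hz⟩ := exists_ne x
  obtain ⟨p⟩ := hT.connected.preconnected x z
  cases p with
  | nil => exact absurd rfl hz
  | cons h _ => exact ⟨_, h⟩

lemma isR_of (hT : G.IsTree) (hn : 4 ≤ Fintype.card V) {u v : V} (h : G.Adj u v)
    (h1 : (nb G u).card = 1) (h2 : (nb G v).card = 2)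
    (hno : ∀ x ∈ RR G u v, ∀ y ∈ RR G u v, ¬ G.Adj x y) : ∃ w, IsR G u v w := by
  classical
  have hu : nb G u = {v} := by
    obtain ⟨a, ha⟩ := card_eq_one.1 h1
    have : v ∈ nb G u := (mem_nb G).2 h
    rw [ha, mem_singleton] at this
    rw [ha, this]
  have huv : u ∈ nb G v := (mem_nb G).2 h.symm
  obtain ⟨w, hw⟩ : ∃ w, nb G v = {u, w} ∧ w ≠ u := by
    have h3 : ((nb G v).erase u).card = 1 := by rw [card_erase_of_mem huv, h2]
    obtain ⟨w, hw⟩ := card_eq_one.1 h3
    refine ⟨w, ?_, ?_⟩
    · rw [← insert_erase huv, hw]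
    · have : w ∈ (nb G v).erase u := by rw [hw]; exact mem_singleton_self _
      exact ne_of_mem_erase this
  obtain ⟨hv, hwu⟩ := hw
  have hAu : ∀ x, G.Adj u x ↔ x = v := by
    intro x
    rw [← mem_nb, hu, mem_singleton]
  have hAv : ∀ x, G.Adj v x ↔ x = u ∨ x = w := by
    intro x
    rw [← mem_nb, hv, mem_insert, mem_singleton]
  have hvw : v ≠ w := by
    have : G.Adj v w := (hAv w).2 (Or.inr rfl)
    exact this.ne
  have hR : ∀ x, x ∈ RR G u v ↔ x ≠ u ∧ x ≠ v ∧ x ≠ w := by
    intro x
    unfold RR
    rw [mem_filter, hAu, hAv]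
    simp only [mem_univ, true_and]
    tauto
  have hAR : ∀ x ∈ RR G u v, G.Adj w x := by
    intro x hx
    obtain ⟨y, hy⟩ := exists_nbr G hT (by omega) x
    have hyR : y ∉ RR G u v := fun hyR => hno x hx y hyR hy
    rw [hR] at hyR hx
    by_cases e1 : y = u
    · rw [e1] at hy
      exact absurd ((hAu x).1 hy.symm) hx.2.1
    · by_cases e2 : y = v
      · rw [e2] at hy
        rcases (hAv x).1 hy.symm with e | e
        · exact absurd e hx.1
        · exact absurd e hx.2.2
      · by_cases e3 : y = w
        · rw [e3] at hy; exact hy.symm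
        · exact absurd ⟨e1, e2, e3⟩ hyR
  refine ⟨w, h.ne, hwu.symm, hvw, ?_⟩
  intro x y
  constructor
  · intro hxy
    by_cases e1 : x = u
    · rw [e1] at hxy
      exact Or.inl ⟨e1, (hAu y).1 hxy⟩
    by_cases e2 : x = v
    · rw [e2] at hxy
      rcases (hAv y).1 hxy with e | e
      · exact Or.inr (Or.inl ⟨e2, e⟩)
      · refine Or.inr (Or.inr (Or.inr ⟨e, ?_, e1⟩))
        rw [e2]; exact hvw
    by_cases e3 : x = w
    · refine Or.inr (Or.inr (Or.inl ⟨e3, ?_, ?_⟩))
      · rw [e3] at hxy; exact hxy.ne'
      · intro e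
        rw [e] at hxy
        exact e2 ((hAu x).1 hxy.symm)
    · have hx : x ∈ RR G u v := (hR x).2 ⟨e1, e2, e3⟩
      have hyR : y ∉ RR G u v := fun hyR => hno x hx y hyR hxy
      refine Or.inr (Or.inr (Or.inr ⟨?_, e3, e1⟩))
      by_contra e6
      apply hyR
      rw [hR]
      refine ⟨?_, ?_, e6⟩
      · intro e
        rw [e] at hxy
        exact e2 ((hAu x).1 hxy.symm)
      · intro e
        rw [e] at hxy
        rcases (hAv x).1 hxy.symm with e' | e'
        · exact e1 e'
        · exact e3 e'
  · have hww : ∀ z, z ≠ w → z ≠ u → G.Adj w z := by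
      intro z h1 h2
      by_cases e : z = v
      · rw [e]; exact ((hAv w).2 (Or.inr rfl)).symm
      · exact hAR z ((hR z).2 ⟨h2, e, h1⟩)
    rintro (⟨rfl, rfl⟩ | ⟨rfl, rfl⟩ | ⟨rfl, h1, h2⟩ | ⟨rfl, h1, h2⟩)
    · exact h
    · exact h.symm
    · exact hww y h1 h2
    · exact (hww x h1 h2).symm

lemma FF_symm (u v : V) : FF G u v = FF G v u := by
  ext S
  rw [mem_FF, mem_FF]
  constructor
  · rintro ⟨a, b, c⟩
    exact ⟨b, a, fun x hx y hy h => (c x hx y hy h).symm⟩
  · rintro ⟨a, b, c⟩
    exact ⟨b, a, fun x hx y hy h => (c x hx y hy h).symm⟩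

lemma RR_symm (u v : V) : RR G u v = RR G v u := by
  classical
  ext x
  unfold RR
  rw [mem_filter, mem_filter]
  tauto

lemma pair_bound (hT : G.IsTree) (hn : 4 ≤ Fintype.card V) {u v : V} (h : G.Adj u v)
    (hno : (¬ ∃ a b c, IsR G a b c)) :
    6 * ∑ S ∈ FF G u v, S.card ≤ (3 * Fintype.card V + 1) * (FF G u v).card := by
  classical
  have hc := card_RR G hT h
  have hu1 : 1 ≤ (nb G u).card := card_pos.2 ⟨v, (mem_nb G).2 h⟩
  have hv1 : 1 ≤ (nb G v).card := card_pos.2 ⟨u, (mem_nb G).2 h.symm⟩
  by_cases h4 : 4 ≤ (nb G u).card + (nb G v).card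
  · have := total_le G h ∅ (empty_subset _) 0 (by simp)
    rw [card_empty, mul_zero, zero_mul, add_zero, add_zero] at this
    refine this.trans (Nat.mul_le_mul_right _ ?_)
    omega
  · by_cases hedge : ∃ x ∈ RR G u v, ∃ y ∈ RR G u v, G.Adj x y
    · have h3 : 3 ≤ (nb G u).card + (nb G v).card := by
        by_contra hlt
        -- both leaves: no further vertices
        have e1 : (nb G u).card = 1 := by omega
        have e2 : (nb G v).card = 1 := by omega
        obtain ⟨a, ha⟩ := card_eq_one.1 e1
        obtain ⟨b, hb⟩ := card_eq_one.1 e2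
        have hva : v ∈ nb G u := (mem_nb G).2 h
        have hub : u ∈ nb G v := (mem_nb G).2 h.symm
        rw [ha, mem_singleton] at hva
        rw [hb, mem_singleton] at hub
        obtain ⟨x, hx, -⟩ := hedge
        have hxu : x ≠ u := by
          rintro rfl
          unfold RR at hx
          rw [mem_filter] at hx
          exact hx.2.2 h.symm
        obtain ⟨p⟩ := hT.connected.preconnected u x
        have key : ∀ (y z : V) (p : G.Walk y z), y = u ∨ y = v → z = u ∨ z = v := by
          intro y z p
          induction p with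
          | nil => exact id
          | cons hadj _ ih =>
            rename_i y1 y2 _ _
            intro hy
            apply ih
            rcases hy with rfl | rfl
            · right
              have : y2 ∈ nb G y1 := (mem_nb G).2 hadj
              rw [ha, mem_singleton] at this
              rw [this, hva]
            · left
              have : y2 ∈ nb G y1 := (mem_nb G).2 hadj
              rw [hb, mem_singleton] at this
              rw [this, hub]
        rcases key u x p (Or.inl rfl) with e | e
        · exact hxu e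
        · rw [e] at hx
          unfold RR at hx
          rw [mem_filter] at hx
          exact hx.2.1 h
      obtain ⟨x, hx, y, hy, hxy⟩ := hedge
      have hB : ({x, y} : Finset V) ⊆ RR G u v := by
        intro z hz
        rw [mem_insert, mem_singleton] at hz
        rcases hz with rfl | rfl
        · exact hx
        · exact hy
      have huR : u ∉ RR G u v := by
        unfold RR; rw [mem_filter]; exact fun h' => h'.2.2 h.symm
      have hvR : v ∉ RR G u v := by
        unfold RR; rw [mem_filter]; exact fun h' => h'.2.1 h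
      have hth := third G (u := u) (v := v) (x := x) (y := y) (fun e => huR (e ▸ hx))
        (fun e => hvR (e ▸ hx)) (fun e => huR (e ▸ hy)) (fun e => hvR (e ▸ hy)) hxy
      have := total_le G h {x, y} hB 4 (by
        rw [sum_pair hxy.ne]
        omega)
      rw [card_pair hxy.ne] at this
      have e : (12 + 3 * (RR G u v).card + 4) = (3 * Fintype.card V + 1) + 6 := by omega
      rw [e, add_mul] at this
      omega
    · push Not at hedge
      exfalso
      apply hno
      have hR2 : (RR G u v).card + 3 ≤ Fintype.card V ∨ (nb G u).card + (nb G v).card = 2 := by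
        omega
      by_cases e3 : (nb G u).card + (nb G v).card = 3
      · have : ((nb G u).card = 1 ∧ (nb G v).card = 2) ∨
          ((nb G u).card = 2 ∧ (nb G v).card = 1) := by omega
        rcases this with ⟨e1, e2⟩ | ⟨e1, e2⟩
        · obtain ⟨w, hw⟩ := isR_of G hT hn h e1 e2 hedge
          exact ⟨u, v, w, hw⟩
        · obtain ⟨w, hw⟩ := isR_of G hT hn h.symm e2 e1 (by rw [RR_symm]; exact hedge)
          exact ⟨v, u, w, hw⟩
      · -- both degrees are one, then `RR` is nonempty and its vertices have no neighbours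
        exfalso
        have e1 : (nb G u).card = 1 := by omega
        have e2 : (nb G v).card = 1 := by omega
        have hRne : 0 < (RR G u v).card := by omega
        obtain ⟨x, hx⟩ := card_pos.1 hRne
        obtain ⟨y, hy⟩ := exists_nbr G hT (by omega) x
        obtain ⟨a, ha⟩ := card_eq_one.1 e1
        obtain ⟨b, hb⟩ := card_eq_one.1 e2
        have hva : v ∈ nb G u := (mem_nb G).2 h
        have hub : u ∈ nb G v := (mem_nb G).2 h.symm
        rw [ha, mem_singleton] at hva
        rw [hb, mem_singleton] at hub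
        apply hedge x hx y _ hy
        unfold RR at hx ⊢
        rw [mem_filter] at hx ⊢
        refine ⟨mem_univ _, fun h' => ?_, fun h' => ?_⟩
        · have : y ∈ nb G u := (mem_nb G).2 h'
          rw [ha, mem_singleton, ← hva] at this
          rw [this] at hy
          exact hx.2.2 hy.symm
        · have : y ∈ nb G v := (mem_nb G).2 h'
          rw [hb, mem_singleton, ← hub] at this
          rw [this] at hy
          exact hx.2.1 hy.symm

theorem general (hT : G.IsTree) (hn : 4 ≤ Fintype.card V) (hno : (¬ ∃ a b c, IsR G a b c)) :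
    6 * tt G ≤ (3 * Fintype.card V + 1) * sg G := by
  classical
  have h1 := double G (fun S => 6 * S.card)
  have h2 := double G (fun _ => 3 * Fintype.card V + 1)
  have h3 : 2 * ∑ S ∈ NI G, 6 * S.card ≤ 2 * ∑ _S ∈ NI G, (3 * Fintype.card V + 1) := by
    rw [h1, h2]
    refine sum_le_sum fun p hp => ?_
    rw [mem_filter] at hp
    rw [← mul_sum, sum_const, smul_eq_mul]
    rw [mul_comm (FF G p.1 p.2).card]
    exact pair_bound G hT hn hp.2 hno
  rw [← mul_sum, sum_const, smul_eq_mul] at h3
  unfold tt sg
  rw [mul_comm (NI G).card] at h3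
  omega

end

end Q117.AV
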